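import Pool.Agent.E8helper55.RN.Chow

/-!
# The explicit family for the sum of `k` copies of `U_{1,2}` (helper file)
-/

namespace Pool.Agent.E8helper55.RN

open Finset MvPolynomial

set_option linter.unusedSectionVars false

variable {α : Type} [Fintype α] [DecidableEq α] {n k : ℕ}

/-- rank: the number of blocks that are hit -/
def rk (e : α ≃ Fin k × Bool) (S : Finset α) : ℕ := (S.image (fun a => (e a).1)).card

theorem rk_mono (e : α ≃ Fin k × Bool) {S T : Finset α} (h : S ⊆ T) : rk e S ≤ rk e T :=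
  Finset.card_le_card (Finset.image_subset_image h)

theorem rk_le_card (e : α ≃ Fin k × Bool) (S : Finset α) : rk e S ≤ S.card :=
  Finset.card_image_le

/-- first elements of the blocks `< p` and second elements of the blocks in `[u, v)` -/
def Z (e : α ≃ Fin k × Bool) (p u v : ℕ) : Finset α :=
  univ.filter (fun a => ((e a).2 = false ∧ ((e a).1 : ℕ) < p) ∨
    ((e a).2 = true ∧ u ≤ ((e a).1 : ℕ) ∧ ((e a).1 : ℕ) < v))

theorem card_fin_lt {p : ℕ} (h : p ≤ k) : (univ.filter (fun b : Fin k => (b : ℕ) < p)).card = p := by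
  have h2 : (univ.filter (fun i : Fin k => (i : ℕ) < p)) = (univ : Finset (Fin p)).map
      (Fin.castLEEmb h) := by
    ext i
    simp only [mem_filter, mem_univ, true_and, mem_map, Fin.castLEEmb_apply]
    constructor
    · intro hi; exact ⟨⟨i, hi⟩, by ext; simp⟩
    · rintro ⟨j, rfl⟩; simp
  rw [h2, card_map, card_univ, Fintype.card_fin]

theorem card_fin_Ico {u v : ℕ} (h : v ≤ k) (huv : u ≤ v) :
    (univ.filter (fun b : Fin k => u ≤ (b : ℕ) ∧ (b : ℕ) < v)).card = v - u := by
  have h1 := card_fin_lt (k := k) h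
  have h2 := card_fin_lt (k := k) (le_trans huv h)
  have h3 : univ.filter (fun b : Fin k => (b : ℕ) < v)
      = univ.filter (fun b : Fin k => (b : ℕ) < u) ∪
        univ.filter (fun b : Fin k => u ≤ (b : ℕ) ∧ (b : ℕ) < v) := by
    ext b; simp only [mem_filter, mem_univ, true_and, mem_union]; omega
  have h4 : Disjoint (univ.filter (fun b : Fin k => (b : ℕ) < u))
      (univ.filter (fun b : Fin k => u ≤ (b : ℕ) ∧ (b : ℕ) < v)) := by
    rw [Finset.disjoint_left]
    intro b; simp only [mem_filter, mem_univ, true_and]; omega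
  rw [h3, Finset.card_union_of_disjoint h4] at h1
  omega

theorem card_Z (e : α ≃ Fin k × Bool) {p u v : ℕ} (hp : p ≤ k) (hv : v ≤ k) (huv : u ≤ v) :
    (Z e p u v).card = p + (v - u) := by
  unfold Z
  rw [Finset.card_filter, Fintype.sum_equiv e _ (fun x : Fin k × Bool =>
    if (x.2 = false ∧ (x.1 : ℕ) < p) ∨ (x.2 = true ∧ u ≤ (x.1 : ℕ) ∧ (x.1 : ℕ) < v) then 1 else 0)
    (fun a => rfl), Fintype.sum_prod_type]
  simp only [Fintype.sum_bool, Bool.true_eq_false, Bool.false_eq_true, false_and, false_or, or_false, true_and]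
  rw [Finset.sum_add_distrib, ← Finset.card_filter, ← Finset.card_filter, card_fin_lt hp,
    card_fin_Ico hv huv, add_comm]

theorem rk_Z (e : α ≃ Fin k × Bool) {p u v : ℕ} (hp : p ≤ k) (hv : v ≤ p) :
    rk e (Z e p u v) = p := by
  unfold rk
  have h1 : (Z e p u v).image (fun a => (e a).1) = univ.filter (fun b : Fin k => (b : ℕ) < p) := by
    ext b
    simp only [mem_image, Z, mem_filter, mem_univ, true_and]
    constructor
    · rintro ⟨a, h, rfl⟩
      rcases h with h | h
      · exact h.2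
      · omega
    · intro h
      exact ⟨e.symm (b, false), by simp [h], by simp⟩
  rw [h1, card_fin_lt hp]

theorem Z_subset (e : α ≃ Fin k × Bool) {p u v p' u' v' : ℕ} (hp : p ≤ p') (hu : v ≤ u ∨ (u' ≤ u ∧ v ≤ v')) :
    Z e p u v ⊆ Z e p' u' v' := by
  intro a
  simp only [Z, mem_filter, mem_univ, true_and]
  rintro (⟨h1, h2⟩ | ⟨h1, h2, h3⟩)
  · left; exact ⟨h1, by omega⟩
  · right; exact ⟨h1, by omega, by omega⟩

/-- the five numbers of an index -/
structure Num where
  n11 : ℕ
  n12 : ℕ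
  n22 : ℕ
  n02 : ℕ
  n01 : ℕ

/-- the numbers are admissible -/
structure Adm (k : ℕ) (P : Num) : Prop where
  h11 : 2 ≤ P.n11
  h12 : 2 ≤ P.n12
  h22 : 1 ≤ P.n22
  h02 : 1 ≤ P.n02
  h01 : 2 ≤ P.n01
  e11 : P.n11 % 2 = 0
  e12 : P.n12 % 2 = 0
  e01 : P.n01 % 2 = 0
  tot : P.n11 + P.n12 + P.n22 + P.n02 + P.n01 ≤ k

namespace Num
variable (P : Num)
def d1 : ℕ := P.n11
def d2 : ℕ := P.n11 + P.n12
def d3 : ℕ := P.n11 + P.n12 + P.n22
def d4 : ℕ := P.n11 + P.n12 + P.n22 + P.n02
def d5 : ℕ := P.n11 + P.n12 + P.n22 + P.n02 + P.n01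
end Num

/-- the sets -/
def U1 (e : α ≃ Fin k × Bool) (P : Num) : Finset α := Z e P.d3 0 0
def SS (e : α ≃ Fin k × Bool) (P : Num) : Finset α := Z e P.d3 P.d2 P.d3
def U2 (e : α ≃ Fin k × Bool) (P : Num) : Finset α := Z e P.d3 P.d1 P.d3
def U3 (e : α ≃ Fin k × Bool) (P : Num) : Finset α := Z e P.d5 P.d1 P.d3
def TT (e : α ≃ Fin k × Bool) (P : Num) : Finset α := Z e P.d5 P.d1 P.d4
def U4 (e : α ≃ Fin k × Bool) (P : Num) : Finset α := Z e P.d5 0 P.d5

theorem exists_w (hcard : Fintype.card α = n) (e : α ≃ Fin k × Bool) (P : Num) :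
    ∃ w : Fin n ≃ α, ∀ S ∈ ({U1 e P, SS e P, U2 e P, U3 e P, TT e P, U4 e P} :
      Finset (Finset α)), S = pref w S.card := by
  apply exists_order hcard
  have a1 : U1 e P ⊆ SS e P := Z_subset e (le_refl _) (Or.inl (le_refl _))
  have a2 : SS e P ⊆ U2 e P := Z_subset e (le_refl _) (Or.inr (by unfold Num.d1 Num.d2 Num.d3; omega))
  have a3 : U2 e P ⊆ U3 e P := Z_subset e (by unfold Num.d3 Num.d5; omega) (Or.inr (by omega))
  have a4 : U3 e P ⊆ TT e P := Z_subset e (le_refl _) (Or.inr (by unfold Num.d3 Num.d4; omega))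
  have a5 : TT e P ⊆ U4 e P := Z_subset e (le_refl _) (Or.inr (by unfold Num.d1 Num.d4 Num.d5; omega))
  have b13 := a1.trans a2
  have b14 := b13.trans a3
  have b15 := b14.trans a4
  have b16 := b15.trans a5
  have b24 := a2.trans a3
  have b25 := b24.trans a4
  have b26 := b25.trans a5
  have b35 := a3.trans a4
  have b36 := b35.trans a5
  have b46 := a4.trans a5
  intro S hS T hT
  simp only [mem_insert, mem_singleton] at hS hT
  rcases hS with rfl | rfl | rfl | rfl | rfl | rfl <;>
    rcases hT with rfl | rfl | rfl | rfl | rfl | rfl <;>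
    first
      | exact Or.inl (Finset.Subset.refl _)
      | (left; assumption)
      | (right; assumption)

/-- the chosen ordering -/
noncomputable def ww (hcard : Fintype.card α = n) (e : α ≃ Fin k × Bool) (P : Num) : Fin n ≃ α :=
  (exists_w hcard e P).choose

theorem ww_spec (hcard : Fintype.card α = n) (e : α ≃ Fin k × Bool) (P : Num) :
    U1 e P = pref (ww hcard e P) (U1 e P).card ∧ SS e P = pref (ww hcard e P) (SS e P).card ∧
    U2 e P = pref (ww hcard e P) (U2 e P).card ∧ U3 e P = pref (ww hcard e P) (U3 e P).card ∧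
    TT e P = pref (ww hcard e P) (TT e P).card ∧ U4 e P = pref (ww hcard e P) (U4 e P).card := by
  have h := (exists_w hcard e P).choose_spec
  refine ⟨h _ ?_, h _ ?_, h _ ?_, h _ ?_, h _ ?_, h _ ?_⟩ <;> simp

/-- the target ranks -/
noncomputable def rho (hcard : Fintype.card α = n) (e : α ≃ Fin k × Bool) (P : Num) (s : ℕ) : ℕ :=
  rk e (pref (ww hcard e P) s)

section
variable (hcard : Fintype.card α = n) (e : α ≃ Fin k × Bool) (P : Num) (hP : Adm k P)
include hP

theorem card_U1 : (U1 e P).card = P.d3 := by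
  have := hP.tot
  unfold U1
  rw [card_Z e (by unfold Num.d3; omega) (by omega) (le_refl _)]; rfl

theorem card_SS : (SS e P).card = P.d3 + P.n22 := by
  have := hP.tot
  unfold SS
  rw [card_Z e (by unfold Num.d3; omega) (by unfold Num.d3; omega) (by unfold Num.d2 Num.d3; omega)]
  unfold Num.d2 Num.d3; omega

theorem card_U2 : (U2 e P).card = P.d3 + P.n12 + P.n22 := by
  have := hP.tot
  unfold U2
  rw [card_Z e (by unfold Num.d3; omega) (by unfold Num.d3; omega) (by unfold Num.d1 Num.d3; omega)]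
  unfold Num.d1 Num.d3; omega

theorem card_U3 : (U3 e P).card = P.d5 + P.n12 + P.n22 := by
  have := hP.tot
  unfold U3
  rw [card_Z e (by unfold Num.d5; omega) (by unfold Num.d3; omega) (by unfold Num.d1 Num.d3; omega)]
  unfold Num.d1 Num.d3 Num.d5; omega

theorem card_TT : (TT e P).card = P.d5 + P.n12 + P.n22 + P.n02 := by
  have := hP.tot
  unfold TT
  rw [card_Z e (by unfold Num.d5; omega) (by unfold Num.d4; omega) (by unfold Num.d1 Num.d4; omega)]
  unfold Num.d1 Num.d4 Num.d5; omega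

theorem card_U4 : (U4 e P).card = P.d5 + P.d5 := by
  have := hP.tot
  unfold U4
  rw [card_Z e (by unfold Num.d5; omega) (by unfold Num.d5; omega) (by omega)]
  omega

theorem rk_U1 : rk e (U1 e P) = P.d3 := by
  have := hP.tot
  exact rk_Z e (by unfold Num.d3; omega) (by omega)

theorem rk_SS : rk e (SS e P) = P.d3 := by
  have := hP.tot
  exact rk_Z e (by unfold Num.d3; omega) (by omega)

theorem rk_U2 : rk e (U2 e P) = P.d3 := by
  have := hP.tot
  exact rk_Z e (by unfold Num.d3; omega) (by omega)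

theorem rk_U3 : rk e (U3 e P) = P.d5 := by
  have := hP.tot
  exact rk_Z e (by unfold Num.d5; omega) (by unfold Num.d3 Num.d5; omega)

theorem rk_TT : rk e (TT e P) = P.d5 := by
  have := hP.tot
  exact rk_Z e (by unfold Num.d5; omega) (by unfold Num.d4 Num.d5; omega)

theorem rk_U4 : rk e (U4 e P) = P.d5 := by
  have := hP.tot
  exact rk_Z e (by unfold Num.d5; omega) (by omega)

theorem rho_low {s : ℕ} (h1 : P.d3 ≤ s) (h2 : s ≤ P.d3 + P.n12 + P.n22) :
    rho hcard e P s = P.d3 := by
  have hs := ww_spec hcard e P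
  unfold rho
  apply le_antisymm
  · rw [← rk_U2 e P hP]
    rw [hs.2.2.1]
    apply rk_mono
    apply pref_mono
    rw [card_U2 e P hP]; exact h2
  · rw [← rk_U1 e P hP]
    rw [hs.1]
    apply rk_mono
    apply pref_mono
    rw [card_U1 e P hP]; exact h1

theorem rho_high {s : ℕ} (h1 : P.d5 + P.n12 + P.n22 ≤ s) (h2 : s ≤ P.d5 + P.d5) :
    rho hcard e P s = P.d5 := by
  have hs := ww_spec hcard e P
  unfold rho
  apply le_antisymm
  · rw [← rk_U4 e P hP]
    rw [hs.2.2.2.2.2]
    apply rk_mono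
    apply pref_mono
    rw [card_U4 e P hP]; exact h2
  · rw [← rk_U3 e P hP]
    rw [hs.2.2.2.1]
    apply rk_mono
    apply pref_mono
    rw [card_U3 e P hP]; exact h1

end

/-- the element of the family with index `P` -/
noncomputable def elt (hcard : Fintype.card α = n) (e : α ≃ Fin k × Bool) (P : Num)
    (hP : Adm k P) : Elt (rk e) n where
  ρ := rho hcard e P
  l := P.d3 + P.n22
  l' := P.d5 + P.n12 + P.n22 + P.n02
  S := ⟨SS e P, by
    rw [← Finset.card_pos, card_SS e P hP]; have := hP.h22; omega⟩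
  T := ⟨TT e P, by
    rw [← Finset.card_pos, card_TT e P hP]; have := hP.h22; omega⟩
  hl := by have := hP.h22; omega
  hl' := by
    have := hP.h12; have := hP.h01; unfold Num.d3 Num.d5; omega
  hl'' := by
    have h1 := hP.h11
    have h2 := hP.h01
    have h3 := Finset.card_le_univ (U4 e P)
    rw [card_U4 e P hP, hcard] at h3
    unfold Num.d5 at h3 ⊢
    omega
  even := by
    have := hP.e11; have := hP.e12; unfold Num.d3; omega
  even' := by
    have := hP.e11; have := hP.e12; have := hP.e01; unfold Num.d5; omega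
  hS := card_SS e P hP
  hT := card_TT e P hP
  ex := by
    have hs := ww_spec hcard e P
    exact ⟨ww hcard e P, hs.2.1, hs.2.2.2.2.1, fun s _ => rfl⟩

theorem elt_tri (hcard : Fintype.card α = n) (e : α ≃ Fin k × Bool) (P Q : Num)
    (hP : Adm k P) (hQ : Adm k Q) (hl : (elt hcard e P hP).l = (elt hcard e Q hQ).l)
    (hl' : (elt hcard e P hP).l' = (elt hcard e Q hQ).l')
    (hw : ∃ w : Fin n ≃ α, Cond (rk e) (elt hcard e P hP).ρ
      (Lev n (elt hcard e P hP).l (elt hcard e P hP).l') (elt hcard e Q hQ).S.1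
      (elt hcard e Q hQ).T.1 w) :
    Q.n02 ≤ P.n02 ∧ (Q.n02 = P.n02 → Q = P) := by
  have hn := (elt hcard e P hP).hl''
  obtain ⟨w, hS, hT, hρ⟩ := hw
  simp only [elt] at hl hl' hS hT hρ hn
  rw [card_SS e Q hQ, ← hl] at hS
  rw [card_TT e Q hQ, ← hl'] at hT
  have p1 := hP.h11
  have p2 := hP.h12
  have p3 := hP.h22
  have p4 := hP.h02
  have p5 := hP.h01
  have q1 := hQ.h11
  have q2 := hQ.h12
  have q3 := hQ.h22
  have q4 := hQ.h02
  have q5 := hQ.h01
  have qt := hQ.tot
  have h35 : P.d5 = P.d3 + P.n02 + P.n01 := by unfold Num.d3 Num.d5; omega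
  have h3 : P.d3 = P.n11 + P.n12 + P.n22 := rfl
  have g35 : Q.d5 = Q.d3 + Q.n02 + Q.n01 := by unfold Num.d3 Num.d5; omega
  have g3 : Q.d3 = Q.n11 + Q.n12 + Q.n22 := rfl
  have hU4 : P.d5 + P.d5 ≤ n := by
    have h3 := Finset.card_le_univ (U4 e P)
    rwa [card_U4 e P hP, hcard] at h3
  -- ranks of S
  have r1 : rk e (pref w (P.d3 + P.n22 - 1)) = P.d3 := by
    rw [hρ _ (by rw [mem_Lev]; omega)]
    exact rho_low hcard e P hP (by omega) (by omega)
  have r2 : rk e (pref w (P.d3 + P.n22 + 1)) = P.d3 := by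
    rw [hρ _ (by rw [mem_Lev]; omega)]
    exact rho_low hcard e P hP (by omega) (by omega)
  have r3 : rk e (pref w (P.d3 + P.n22 + P.n12)) = P.d3 := by
    rw [hρ _ (by rw [mem_Lev]; omega)]
    exact rho_low hcard e P hP (by omega) (by omega)
  have r4 : rk e (pref w (P.d5 + P.n12 + P.n22 + P.n02 - 1)) = P.d5 := by
    rw [hρ _ (by rw [mem_Lev]; omega)]
    exact rho_high hcard e P hP (by omega) (by omega)
  have r5 : rk e (pref w (P.d5 + P.n12 + P.n22 + P.n02 + 1)) = P.d5 := by
    rw [hρ _ (by rw [mem_Lev]; omega)]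
    exact rho_high hcard e P hP (by omega) (by omega)
  have e3 : Q.d3 = P.d3 := by
    rw [← rk_SS e Q hQ]
    apply le_antisymm
    · rw [← r2, hS]; exact rk_mono e (pref_mono w (by omega))
    · rw [← r1, hS]; exact rk_mono e (pref_mono w (by omega))
  have e5 : Q.d5 = P.d5 := by
    rw [← rk_TT e Q hQ]
    apply le_antisymm
    · rw [← r5, hT]; exact rk_mono e (pref_mono w (by omega))
    · rw [← r4, hT]; exact rk_mono e (pref_mono w (by omega))
  have e22 : Q.n22 = P.n22 := by omega
  have e1202 : Q.n12 + Q.n02 = P.n12 + P.n02 := by omega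
  -- the set U
  set U := pref w (P.d3 + P.n22 + P.n12) with hU
  have hSU : SS e Q ⊆ U := by
    rw [hS, hU]; exact pref_mono w (by omega)
  have hUT : U ⊆ TT e Q := by
    rw [hT, hU]; exact pref_mono w (by omega)
  have himg : (SS e Q).image (fun a => (e a).1) = U.image (fun a => (e a).1) := by
    apply Finset.eq_of_subset_of_card_le (Finset.image_subset_image hSU)
    have := rk_SS e Q hQ
    unfold rk at this r3
    rw [this, r3, e3]
  have hUU : U ⊆ U2 e Q := by
    intro a ha
    have h1 := hUT ha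
    have h2 : (e a).1 ∈ U.image (fun a => (e a).1) := Finset.mem_image_of_mem _ ha
    rw [← himg, Finset.mem_image] at h2
    obtain ⟨b, hb, hab⟩ := h2
    have hlt : ((e a).1 : ℕ) < Q.d3 := by
      rw [← hab]
      simp only [SS, Z, mem_filter, mem_univ, true_and] at hb
      rcases hb with hb | hb
      · exact hb.2
      · exact hb.2.2
    simp only [TT, U2, Z, mem_filter, mem_univ, true_and] at h1 ⊢
    rcases h1 with h1 | h1
    · left; exact ⟨h1.1, hlt⟩
    · right; exact ⟨h1.1, h1.2.1, hlt⟩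
  have hcardU : U.card = P.d3 + P.n22 + P.n12 := by
    rw [hU]; exact card_pref w (by omega)
  have h6 := Finset.card_le_card hUU
  rw [hcardU, card_U2 e Q hQ] at h6
  have h7 : Q.n02 ≤ P.n02 := by omega
  refine ⟨h7, fun h8 => ?_⟩
  have t1 : Q.n12 = P.n12 := by omega
  have t2 : Q.n11 = P.n11 := by omega
  have t3 : Q.n01 = P.n01 := by omega
  cases P; cases Q
  simp only at t1 t2 t3 e22 h8
  subst t1 t2 t3 e22 h8
  rfl

/-- the index set and its numbers -/
abbrev Ix (K : ℕ) := Fin K × Fin K × Fin K × Fin K × Fin K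

def num {K : ℕ} (i : Ix K) : Num where
  n11 := 2 * (i.1 : ℕ) + 2
  n12 := 2 * (i.2.1 : ℕ) + 2
  n22 := (i.2.2.1 : ℕ) + 1
  n02 := (i.2.2.2.1 : ℕ) + 1
  n01 := 2 * (i.2.2.2.2 : ℕ) + 2

theorem num_inj {K : ℕ} {i j : Ix K} (h : num i = num j) : i = j := by
  obtain ⟨a1, a2, a3, a4, a5⟩ := i
  obtain ⟨b1, b2, b3, b4, b5⟩ := j
  simp only [num, Num.mk.injEq] at h
  simp only [Prod.mk.injEq]
  refine ⟨Fin.ext ?_, Fin.ext ?_, Fin.ext ?_, Fin.ext ?_, Fin.ext ?_⟩ <;> omega

theorem num_adm {K : ℕ} (hK : 8 * K ≤ k) (i : Ix K) : Adm k (num i) := by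
  obtain ⟨a1, a2, a3, a4, a5⟩ := i
  have := a1.2
  have := a2.2
  have := a3.2
  have := a4.2
  have := a5.2
  constructor <;> simp only [num] <;> omega

/-- the lower bound in degree `n - 3` -/
theorem hilbert_lower (hcard : Fintype.card α = n) (e : α ≃ Fin k × Bool) {K : ℕ}
    (hK : 8 * K ≤ k) (M : Matroid α)
    (hM : ∀ S : Finset α, M.eRk (S : Set α) = (rk e S : ℕ∞)) :
    K ^ 5 ≤ hilbert M (n - 3) := by
  classical
  have h1 := linInd hcard (rk e) (fun i : Ix K => elt hcard e (num i) (num_adm hK i))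
    (fun i => (num i).n02) (by
      intro i j hl hl' hw
      have h2 := elt_tri hcard e (num i) (num j) (num_adm hK i) (num_adm hK j) hl hl' hw
      exact ⟨h2.1, fun h => num_inj (h2.2 h)⟩)
  have h3 := card_le_hilbert M (n - 3) _ h1
    (fun i => mk_Fpoly_mem hcard M (rk e) hM _ _ (by
      intro s hs
      rw [mem_Lev] at hs
      have h4 := rk_le_card e (pref (ww hcard e (num i)) s)
      rw [card_pref _ (by omega)] at h4
      exact h4) (by
      intro s hs
      rw [mem_Lev] at hs
      omega))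
    (fun i => by
      have h5 := mk_Fpoly_graded (rk e) (elt hcard e (num i) (num_adm hK i)).ρ
        (Lev n (elt hcard e (num i) (num_adm hK i)).l (elt hcard e (num i) (num_adm hK i)).l')
      have a1 := (elt hcard e (num i) (num_adm hK i)).hl
      have a2 := (elt hcard e (num i) (num_adm hK i)).hl'
      have a3 := (elt hcard e (num i) (num_adm hK i)).hl''
      have h6 := card_Lev a1 (by omega : (elt hcard e (num i) (num_adm hK i)).l < n)
        (by omega) a3 (by omega)
      have h7 : (Lev n (elt hcard e (num i) (num_adm hK i)).l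
          (elt hcard e (num i) (num_adm hK i)).l').card = n - 3 := by omega
      rw [h7] at h5
      exact h5)
  have h8 : Fintype.card (Ix K) = K ^ 5 := by
    simp only [Fintype.card_prod, Fintype.card_fin]
    ring
  rw [h8] at h3
  exact h3

end Pool.Agent.E8helper55.RN
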