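import Pool.Agent.E8helper55.RN.PQ
import Pool.Agent.E8helper55.RN.Family

/-!
# The action of the automorphisms and the upper bound in degree `n - 2` (helper file)
-/

namespace Pool.Agent.E8helper55.RN

open Finset MvPolynomial

set_option linter.unusedSectionVars false

variable {α : Type} [Fintype α] [DecidableEq α] {n k : ℕ}

/-- image of a set under a permutation -/
def gm (g : Equiv.Perm α) (S : Finset α) : Finset α := S.map g.toEmbedding

theorem mem_gm {g : Equiv.Perm α} {S : Finset α} {a : α} : a ∈ gm g S ↔ g.symm a ∈ S := by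
  unfold gm
  rw [Finset.mem_map_equiv]

theorem gm_mul (g h : Equiv.Perm α) (S : Finset α) : gm g (gm h S) = gm (g * h) S := by
  ext a
  rw [mem_gm, mem_gm, mem_gm]
  rfl

theorem gm_one (S : Finset α) : gm 1 S = S := by
  ext a; rw [mem_gm]; rfl

theorem gm_inv (g : Equiv.Perm α) (S : Finset α) : gm g⁻¹ (gm g S) = S := by
  rw [gm_mul, inv_mul_cancel, gm_one]

theorem gm_inv' (g : Equiv.Perm α) (S : Finset α) : gm g (gm g⁻¹ S) = S := by
  rw [gm_mul, mul_inv_cancel, gm_one]

theorem gm_subset {g : Equiv.Perm α} {S T : Finset α} : gm g S ⊆ gm g T ↔ S ⊆ T := by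
  unfold gm
  exact Finset.map_subset_map

theorem gm_card (g : Equiv.Perm α) (S : Finset α) : (gm g S).card = S.card := by
  unfold gm; exact Finset.card_map _

theorem gm_nonempty (g : Equiv.Perm α) {S : Finset α} (h : S.Nonempty) : (gm g S).Nonempty := by
  unfold gm; exact h.map

theorem gm_univ (g : Equiv.Perm α) : gm g (univ : Finset α) = univ := by
  ext a; rw [mem_gm]; simp

theorem gm_eq_univ {g : Equiv.Perm α} {S : Finset α} : gm g S = univ ↔ S = univ := by
  constructor
  · intro h
    rw [← gm_inv g S, h, gm_univ]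
  · rintro rfl; exact gm_univ g

/-- the action on polynomials -/
noncomputable def actP (g : Equiv.Perm α) : MvPolynomial (Idx α) ℤ →ₐ[ℤ] ChowRing α :=
  aeval (fun S : Idx α => cx α (gm g S.1))

theorem actP_ideal (g : Equiv.Perm α) (p : MvPolynomial (Idx α) ℤ) (hp : p ∈ chowIdeal α) :
    actP g p = 0 := by
  have h1 : chowIdeal α ≤ RingHom.ker (actP g) := by
    refine Ideal.span_le.2 ?_
    rintro q (⟨S, T, h1, h2, rfl⟩ | ⟨e, rfl⟩)
    · refine SetLike.mem_coe.2 (RingHom.mem_ker.2 ?_)
      rw [map_mul]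
      unfold actP
      rw [aeval_X, aeval_X]
      exact cx_inc _ _ (fun h => h1 (gm_subset.1 h)) (fun h => h2 (gm_subset.1 h))
    · refine SetLike.mem_coe.2 (RingHom.mem_ker.2 ?_)
      rw [map_sum]
      unfold actP
      simp only [aeval_X]
      rw [← cx_lin (g e)]
      apply Finset.sum_bij (fun (S : Idx α) _ => gm g S.1)
      · intro S hS
        simp only [mem_filter, mem_univ, true_and] at hS ⊢
        rw [mem_gm]; simpa using hS
      · intro S _ T _ h
        apply Subtype.ext
        rw [← gm_inv g S.1, h, gm_inv]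
      · intro T hT
        simp only [mem_filter, mem_univ, true_and] at hT
        refine ⟨⟨gm g⁻¹ T, gm_nonempty _ ⟨_, hT⟩⟩, ?_, gm_inv' g T⟩
        simp only [mem_filter, mem_univ, true_and]
        rw [mem_gm]
        exact hT
      · intro S _; rfl
  exact h1 hp

/-- the action on the Chow ring -/
noncomputable def act (g : Equiv.Perm α) : ChowRing α →ₐ[ℤ] ChowRing α :=
  Ideal.Quotient.liftₐ (chowIdeal α) (actP g) (actP_ideal g)

theorem act_xvar (g : Equiv.Perm α) (S : Idx α) : act g (xvar α S) = cx α (gm g S.1) := by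
  unfold act xvar
  have : Ideal.Quotient.liftₐ (chowIdeal α) (actP g) (actP_ideal g)
      (Ideal.Quotient.mk (chowIdeal α) (X S)) = actP g (X S) := rfl
  rw [this]
  unfold actP
  rw [aeval_X]

theorem act_cx (g : Equiv.Perm α) (S : Finset α) : act g (cx α S) = cx α (gm g S) := by
  by_cases h : S.Nonempty
  · have h1 : cx α S = xvar α ⟨S, h⟩ := by unfold cx; rw [dif_pos h]
    rw [h1, act_xvar]
  · rw [Finset.not_nonempty_iff_eq_empty] at h
    rw [h]
    have h2 : gm g (∅ : Finset α) = ∅ := by unfold gm; exact Finset.map_empty _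
    rw [h2]
    have h3 : cx α (∅ : Finset α) = 1 := by
      unfold cx; rw [dif_neg Finset.not_nonempty_empty]
    rw [h3, map_one]

theorem act_xh (g : Equiv.Perm α) (S : Finset α) : act g (xh S) = xh (gm g S) := by
  unfold xh
  by_cases h : S = univ
  · rw [if_pos h, if_pos (gm_eq_univ.2 h), map_one]
  · rw [if_neg h, if_neg (fun h' => h (gm_eq_univ.1 h')), act_cx]

theorem act_P (g : Equiv.Perm α) (m : ℕ) : ∀ S : Finset α, S.card = m →
    act g (P S) = P (gm g S) := by
  induction m with
  | zero =>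
    intro S hS
    rw [Finset.card_eq_zero] at hS
    have h2 : gm g (∅ : Finset α) = ∅ := by unfold gm; exact Finset.map_empty _
    rw [hS, h2, P_empty, map_one]
  | succ m ih =>
    intro S hS
    obtain ⟨a, ha⟩ : S.Nonempty := by rw [← Finset.card_pos]; omega
    have h1 : g a ∈ gm g S := by rw [mem_gm]; simpa using ha
    have h2 : (gm g S).erase (g a) = gm g (S.erase a) := by
      unfold gm
      rw [Finset.map_erase]
      rfl
    rw [P_erase' ha, P_erase' h1, map_mul, act_xh, h2,
      ih (S.erase a) (by rw [Finset.card_erase_of_mem ha, hS]; omega)]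

theorem act_Q (g : Equiv.Perm α) (m : ℕ) : ∀ S : Finset α, (Sᶜ).card = m →
    act g (Q S) = Q (gm g S) := by
  induction m with
  | zero =>
    intro S hS
    rw [Finset.card_eq_zero, Finset.compl_eq_empty_iff] at hS
    rw [hS, gm_univ, Q_univ, map_one]
  | succ m ih =>
    intro S hS
    obtain ⟨a, ha'⟩ : (Sᶜ).Nonempty := by rw [← Finset.card_pos]; omega
    have ha : a ∉ S := Finset.mem_compl.1 ha'
    have h1 : g a ∉ gm g S := by rw [mem_gm]; simpa using ha
    have h2 : insert (g a) (gm g S) = gm g (insert a S) := by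
      unfold gm
      rw [Finset.map_insert]
      rfl
    rw [Q_insert' ha, Q_insert' h1, map_mul, act_xh, h2,
      ih (insert a S) (by rw [Finset.compl_insert, Finset.card_erase_of_mem ha', hS]; omega)]

theorem act_mul (g h : Equiv.Perm α) (z : ChowRing α) : act g (act h z) = act (g * h) z := by
  have h1 : (act g).comp (act h) = act (g * h) := by
    apply Ideal.Quotient.algHom_ext
    apply MvPolynomial.algHom_ext
    intro S
    have e1 : ∀ f : Equiv.Perm α, act f (Ideal.Quotient.mk (chowIdeal α) (X S))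
        = cx α (gm f S.1) := fun f => act_xvar f S
    change act g (act h (Ideal.Quotient.mk (chowIdeal α) (X S)))
      = act (g * h) (Ideal.Quotient.mk (chowIdeal α) (X S))
    rw [e1, e1, act_cx, gm_mul]
  rw [← h1]; rfl

theorem act_yvar (g : Equiv.Perm α) (M : Matroid α)
    (hg : ∀ S : Finset α, M.eRk (gm g S : Set α) = M.eRk (S : Set α)) (i j : ℕ) :
    act g (yvar M i j) = yvar M i j := by
  classical
  unfold yvar
  rw [map_sum]
  have hg' : ∀ S : Finset α, M.eRk (gm g⁻¹ S : Set α) = M.eRk (S : Set α) := by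
    intro S
    rw [← hg (gm g⁻¹ S), gm_inv']
  apply Finset.sum_nbij' (i := fun S : Idx α => (⟨gm g S.1, gm_nonempty g S.2⟩ : Idx α))
    (j := fun S : Idx α => (⟨gm g⁻¹ S.1, gm_nonempty g⁻¹ S.2⟩ : Idx α))
  · intro S hS
    simp only [mem_filter, mem_univ, true_and] at hS ⊢
    rw [hg, gm_card]; exact hS
  · intro S hS
    simp only [mem_filter, mem_univ, true_and] at hS ⊢
    rw [hg', gm_card]; exact hS
  · intro S _
    apply Subtype.ext; exact gm_inv g S.1
  · intro S _
    apply Subtype.ext; exact gm_inv' g S.1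
  · intro S _
    rw [act_xvar]
    unfold cx
    rw [dif_pos (gm_nonempty g S.2)]

theorem act_fix (g : Equiv.Perm α) (M : Matroid α)
    (hg : ∀ S : Finset α, M.eRk (gm g S : Set α) = M.eRk (S : Set α)) {z : ChowRing α}
    (hz : z ∈ rankNullityRing M) : act g z = z := by
  have h1 : rankNullityRing M ≤ AlgHom.equalizer (act g) (AlgHom.id ℤ (ChowRing α)) := by
    unfold rankNullityRing
    apply Algebra.adjoin_le
    rintro y ⟨i, j, _, _, rfl⟩
    rw [SetLike.mem_coe, AlgHom.mem_equalizer]
    exact act_yvar g M hg i j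
  exact h1 hz

/-! ## the group -/

/-- the rank preserving permutations -/
def GG (e : α ≃ Fin k × Bool) : Finset (Equiv.Perm α) :=
  univ.filter (fun g => ∀ S : Finset α, rk e (gm g S) = rk e S)

theorem mem_GG {e : α ≃ Fin k × Bool} {g : Equiv.Perm α} :
    g ∈ GG e ↔ ∀ S : Finset α, rk e (gm g S) = rk e S := by
  simp [GG]

/-- the sum over the group -/
noncomputable def Av (e : α ≃ Fin k × Bool) : ChowRing α →ₗ[ℤ] ChowRing α :=
  ∑ g ∈ GG e, (act g).toLinearMap

theorem Av_apply (e : α ≃ Fin k × Bool) (z : ChowRing α) : Av e z = ∑ g ∈ GG e, act g z := by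
  unfold Av
  rw [LinearMap.sum_apply]
  rfl

theorem Av_act (e : α ≃ Fin k × Bool) {h : Equiv.Perm α} (hh : h ∈ GG e) (z : ChowRing α) :
    Av e (act h z) = Av e z := by
  rw [Av_apply, Av_apply]
  have hh' := mem_GG.1 hh
  apply Finset.sum_nbij' (i := fun g => g * h) (j := fun g => g * h⁻¹)
  · intro g hg
    rw [mem_GG] at hg ⊢
    intro S
    rw [← gm_mul, hg, hh']
  · intro g hg
    rw [mem_GG] at hg ⊢
    intro S
    rw [← gm_mul, hg]
    rw [← hh' (gm h⁻¹ S), gm_inv']
  · intro g _; simp
  · intro g _; simp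
  · intro g _; rw [act_mul]

/-! ## the classes -/

/-- the part of `A` in block `b` -/
def lab (e : α ≃ Fin k × Bool) (A : Finset α) (b : Fin k) : Finset Bool :=
  univ.filter (fun x => e.symm (b, x) ∈ A)

/-- the class of the block `b` -/
def cl (e : α ≃ Fin k × Bool) (A B : Finset α) (b : Fin k) : ℕ × ℕ :=
  ((lab e A b).card, (lab e B b).card)

/-- number of blocks with a given class -/
def cnt (e : α ≃ Fin k × Bool) (A B : Finset α) (v : ℕ × ℕ) : ℕ :=
  (univ.filter (fun b => cl e A B b = v)).card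

theorem boolperm : ∀ s t s' t' : Finset Bool, s ⊆ t → s' ⊆ t' → s.card = s'.card →
    t.card = t'.card → ∃ f : Equiv.Perm Bool, s.map f.toEmbedding = s' ∧
      t.map f.toEmbedding = t' := by
  decide

theorem fiberperm (c c' : Fin k → ℕ × ℕ)
    (h : ∀ v, (univ.filter (fun b => c b = v)).card = (univ.filter (fun b => c' b = v)).card) :
    ∃ σ : Equiv.Perm (Fin k), ∀ b, c' (σ b) = c b := by
  have E : ∀ v, {b // c b = v} ≃ {b // c' b = v} := fun v => by
    apply Fintype.equivOfCardEq
    rw [Fintype.card_subtype, Fintype.card_subtype]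
    exact h v
  refine ⟨(Equiv.sigmaFiberEquiv c).symm.trans
    ((Equiv.sigmaCongrRight E).trans (Equiv.sigmaFiberEquiv c')), fun b => ?_⟩
  exact (E (c b) ⟨b, rfl⟩).2

theorem exists_perm (e : α ≃ Fin k × Bool) {A B A' B' : Finset α} (hAB : A ⊆ B) (hAB' : A' ⊆ B')
    (h : ∀ v, cnt e A B v = cnt e A' B' v) :
    ∃ g ∈ GG e, gm g A = A' ∧ gm g B = B' := by
  obtain ⟨σ, hσ⟩ := fiberperm (cl e A B) (cl e A' B') h
  have hsub : ∀ {A B : Finset α}, A ⊆ B → ∀ b, lab e A b ⊆ lab e B b := by
    intro A B hAB b x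
    simp only [lab, mem_filter, mem_univ, true_and]
    exact fun h => hAB h
  have hex : ∀ b, ∃ f : Equiv.Perm Bool, (lab e A b).map f.toEmbedding = lab e A' (σ b) ∧
      (lab e B b).map f.toEmbedding = lab e B' (σ b) := by
    intro b
    have h1 := hσ b
    unfold cl at h1
    rw [Prod.mk.injEq] at h1
    exact boolperm _ _ _ _ (hsub hAB b) (hsub hAB' (σ b)) h1.1.symm h1.2.symm
  choose f hf using hex
  set g : Equiv.Perm α := e.trans ((Equiv.prodShear σ f).trans e.symm) with hg
  have hgs : ∀ b x, g (e.symm (b, x)) = e.symm (σ b, f b x) := by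
    intro b x
    simp [hg, Equiv.prodShear]
  have key : ∀ (A A' : Finset α), (∀ b, (lab e A b).map (f b).toEmbedding = lab e A' (σ b)) →
      gm g A = A' := by
    intro A A' hA
    ext a
    rw [mem_gm]
    obtain ⟨⟨b, x⟩, hbx⟩ : ∃ y : Fin k × Bool, g.symm a = e.symm y := ⟨e (g.symm a), by simp⟩
    have ha : a = e.symm (σ b, f b x) := by
      rw [← hgs, ← hbx, Equiv.apply_symm_apply]
    rw [hbx]
    have h1 : e.symm (b, x) ∈ A ↔ x ∈ lab e A b := by simp [lab]
    have h2 : a ∈ A' ↔ f b x ∈ lab e A' (σ b) := by rw [ha]; simp [lab]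
    rw [h1, h2, ← hA b, Finset.mem_map_equiv, Equiv.symm_apply_apply]
  refine ⟨g, ?_, key A A' (fun b => (hf b).1), key B B' (fun b => (hf b).2)⟩
  rw [mem_GG]
  intro S
  unfold rk
  have h1 : (gm g S).image (fun a => (e a).1) = (S.image (fun a => (e a).1)).map σ.toEmbedding := by
    ext c
    rw [Finset.mem_map_equiv, Finset.mem_image, Finset.mem_image]
    constructor
    · rintro ⟨a, ha, rfl⟩
      rw [mem_gm] at ha
      refine ⟨g.symm a, ha, ?_⟩
      rw [Equiv.eq_symm_apply]
      obtain ⟨⟨b, x⟩, hbx⟩ : ∃ y : Fin k × Bool, g.symm a = e.symm y := ⟨e (g.symm a), by simp⟩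
      have ha : a = e.symm (σ b, f b x) := by
        rw [← hgs, ← hbx, Equiv.apply_symm_apply]
      rw [hbx, ha]
      simp
    · rintro ⟨a, ha, h⟩
      rw [Equiv.eq_symm_apply] at h
      refine ⟨g a, by rw [mem_gm, Equiv.symm_apply_apply]; exact ha, ?_⟩
      rw [← h]
      have h3 : a = e.symm ((e a).1, (e a).2) := by simp
      rw [h3, hgs]
      simp
  rw [h1, Finset.card_map]

/-- the invariants of a pair -/
def kap (e : α ≃ Fin k × Bool) (p : Finset α × Finset α) : ℕ × ℕ × ℕ × ℕ × ℕ :=
  (cnt e p.1 p.2 (0, 1), cnt e p.1 p.2 (0, 2), cnt e p.1 p.2 (1, 2), cnt e p.1 p.2 (1, 1),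
    cnt e p.1 p.2 (2, 2))

/-- the pairs -/
def Pairs (α : Type) [Fintype α] [DecidableEq α] : Finset (Finset α × Finset α) :=
  univ.filter (fun p => p.1 ⊆ p.2 ∧ (p.2 \ p.1).card = 2)

theorem cl_mem (e : α ≃ Fin k × Bool) {A B : Finset α} (h : A ⊆ B) (b : Fin k) :
    cl e A B b ∈ ({(0, 0), (0, 1), (0, 2), (1, 1), (1, 2), (2, 2)} : Finset (ℕ × ℕ)) := by
  have h1 : (lab e A b).card ≤ (lab e B b).card := by
    apply Finset.card_le_card
    intro x
    simp only [lab, mem_filter, mem_univ, true_and]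
    exact fun h' => h h'
  have h2 : (lab e B b).card ≤ 2 := by
    have := Finset.card_le_univ (lab e B b)
    simpa using this
  unfold cl
  simp only [mem_insert, mem_singleton, Prod.mk.injEq]
  omega

theorem cnt_total (e : α ≃ Fin k × Bool) {A B : Finset α} (h : A ⊆ B) :
    k = cnt e A B (0, 0) + cnt e A B (0, 1) + cnt e A B (0, 2) + cnt e A B (1, 1)
      + cnt e A B (1, 2) + cnt e A B (2, 2) := by
  have h1 := Finset.card_eq_sum_card_fiberwise (f := cl e A B) (s := univ)
    (t := ({(0, 0), (0, 1), (0, 2), (1, 1), (1, 2), (2, 2)} : Finset (ℕ × ℕ)))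
    (fun b _ => cl_mem e h b)
  rw [Finset.card_univ, Fintype.card_fin] at h1
  rw [Finset.sum_insert (by decide), Finset.sum_insert (by decide), Finset.sum_insert (by decide),
    Finset.sum_insert (by decide), Finset.sum_insert (by decide), Finset.sum_singleton] at h1
  unfold cnt
  omega

theorem cnt_eq_of_kap (e : α ≃ Fin k × Bool) {A B A' B' : Finset α} (hAB : A ⊆ B)
    (hAB' : A' ⊆ B') (h : kap e (A, B) = kap e (A', B')) (v : ℕ × ℕ) :
    cnt e A B v = cnt e A' B' v := by
  unfold kap at h
  simp only [Prod.mk.injEq] at h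
  by_cases hv : v ∈ ({(0, 0), (0, 1), (0, 2), (1, 1), (1, 2), (2, 2)} : Finset (ℕ × ℕ))
  · have h1 := cnt_total e hAB
    have h2 := cnt_total e hAB'
    simp only [mem_insert, mem_singleton] at hv
    rcases hv with rfl | rfl | rfl | rfl | rfl | rfl <;> omega
  · have hz : ∀ {A B : Finset α}, A ⊆ B → cnt e A B v = 0 := by
      intro A B hAB
      unfold cnt
      rw [Finset.card_eq_zero, Finset.filter_eq_empty_iff]
      intro b _ hb
      apply hv
      rw [← hb]; exact cl_mem e hAB b
    rw [hz hAB, hz hAB']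

theorem cnt_small (e : α ≃ Fin k × Bool) {A B : Finset α} (h2 : (B \ A).card = 2)
    {v : ℕ × ℕ} (hv : v.1 < v.2) : cnt e A B v ≤ 2 := by
  unfold cnt
  have h3 : univ.filter (fun b => cl e A B b = v) ⊆ (B \ A).image (fun a => (e a).1) := by
    intro b hb
    rw [Finset.mem_filter] at hb
    have h4 : (lab e A b).card < (lab e B b).card := by
      have := hb.2
      unfold cl at this
      rw [← this] at hv
      exact hv
    obtain ⟨x, hx1, hx2⟩ := Finset.exists_mem_notMem_of_card_lt_card h4
    simp only [lab, mem_filter, mem_univ, true_and] at hx1 hx2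
    rw [Finset.mem_image]
    exact ⟨e.symm (b, x), Finset.mem_sdiff.2 ⟨hx1, hx2⟩, by simp⟩
  calc _ ≤ _ := Finset.card_le_card h3
    _ ≤ _ := Finset.card_image_le
    _ = 2 := h2

theorem cnt_le (e : α ≃ Fin k × Bool) (A B : Finset α) (v : ℕ × ℕ) : cnt e A B v ≤ k := by
  unfold cnt
  have := Finset.card_le_univ (univ.filter (fun b => cl e A B b = v))
  simpa using this

theorem card_kap (e : α ≃ Fin k × Bool) :
    ((Pairs α).image (kap e)).card ≤ 27 * (k + 1) ^ 2 := by
  have h1 : (Pairs α).image (kap e) ⊆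
      (range 3) ×ˢ (range 3) ×ˢ (range 3) ×ˢ (range (k + 1)) ×ˢ (range (k + 1)) := by
    intro v hv
    rw [Finset.mem_image] at hv
    obtain ⟨⟨A, B⟩, hp, rfl⟩ := hv
    simp only [Pairs, mem_filter, mem_univ, true_and] at hp
    simp only [kap, Finset.mem_product, mem_range]
    have a1 := cnt_small e hp.2 (v := (0, 1)) (by norm_num)
    have a2 := cnt_small e hp.2 (v := (0, 2)) (by norm_num)
    have a3 := cnt_small e hp.2 (v := (1, 2)) (by norm_num)
    have a4 := cnt_le e A B (1, 1)
    have a5 := cnt_le e A B (2, 2)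
    omega
  calc _ ≤ _ := Finset.card_le_card h1
    _ = 27 * (k + 1) ^ 2 := by
      simp only [Finset.card_product, Finset.card_range]; ring

open Classical in
/-- the values of the class function -/
noncomputable def vals (e : α ≃ Fin k × Bool) : Finset (ChowRing α) :=
  (Pairs α).image (fun p => Av e (P p.1 * Q p.2))

open Classical in
theorem card_vals (e : α ≃ Fin k × Bool) : (vals e).card ≤ 27 * (k + 1) ^ 2 := by
  let φ : ℕ × ℕ × ℕ × ℕ × ℕ → ChowRing α := fun v =>
    if h : ∃ p ∈ Pairs α, kap e p = v then Av e (P h.choose.1 * Q h.choose.2) else 0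
  have h1 : vals e ⊆ ((Pairs α).image (kap e)).image φ := by
    intro z hz
    unfold vals at hz
    rw [Finset.mem_image] at hz
    obtain ⟨p, hp, rfl⟩ := hz
    rw [Finset.mem_image]
    refine ⟨kap e p, Finset.mem_image_of_mem _ hp, ?_⟩
    have hex : ∃ q ∈ Pairs α, kap e q = kap e p := ⟨p, hp, rfl⟩
    simp only [φ]
    rw [dif_pos hex]
    obtain ⟨hq, hqp⟩ := hex.choose_spec
    set q := hex.choose with hqdef
    obtain ⟨A, B⟩ := p
    have hq' : q = (q.1, q.2) := rfl
    rw [hq'] at hqp
    simp only [Pairs, mem_filter, mem_univ, true_and] at hp hq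
    obtain ⟨g, hg, h2, h3⟩ := exists_perm e hq.1 hp.1 (cnt_eq_of_kap e hq.1 hp.1 hqp)
    rw [← Av_act e hg (P q.1 * Q q.2), map_mul, act_P g _ _ rfl, act_Q g _ _ rfl, h2, h3]
  calc _ ≤ _ := Finset.card_le_card h1
    _ ≤ _ := Finset.card_image_le
    _ ≤ _ := card_kap e

/-- the upper bound in degree `n - 2` -/
theorem hilbert_upper (hcard : Fintype.card α = n) (hn : 2 ≤ n) (e : α ≃ Fin k × Bool)
    (M : Matroid α) (hM : ∀ S : Finset α, M.eRk (S : Set α) = (rk e S : ℕ∞)) :
    hilbert M (n - 2) ≤ 27 * (k + 1) ^ 2 := by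
  classical
  have hN : ∀ z ∈ gradedPiece α (n - 2), Av e z ∈ Submodule.span ℤ (vals e : Set (ChowRing α)) := by
    intro z hz
    have h1 := gradedPiece_le_N hcard (n - 2) hz
    refine Submodule.span_induction
      (p := fun z _ => Av e z ∈ Submodule.span ℤ (vals e : Set (ChowRing α))) ?_ ?_ ?_ ?_ h1
    · rintro z ⟨C, hC, h2, rfl⟩
      obtain ⟨A, B, h3, h4, h5⟩ := mon_eq hcard hC (by omega)
      rw [h5]
      apply Submodule.subset_span
      rw [Finset.mem_coe]
      unfold vals
      rw [Finset.mem_image]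
      exact ⟨(A, B), by simp [Pairs, h3, h4], rfl⟩
    · rw [map_zero]; exact Submodule.zero_mem _
    · intro a b _ _ ha hb; rw [map_add]; exact Submodule.add_mem _ ha hb
    · intro c a _ ha; rw [map_smul]; exact Submodule.smul_mem _ _ ha
  have hone : (1 : Equiv.Perm α) ∈ GG e := by
    rw [mem_GG]; intro S; rw [gm_one]
  have hpos : ((GG e).card : ℤ) ≠ 0 := by
    have : 0 < (GG e).card := Finset.card_pos.2 ⟨1, hone⟩
    omega
  have hfix : ∀ z ∈ rankNullityRing M, Av e z = ((GG e).card : ℤ) • z := by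
    intro z hz
    rw [Av_apply]
    rw [Finset.sum_congr rfl (fun g hg => act_fix g M (by
      intro S
      rw [hM, hM, mem_GG.1 hg S]) hz)]
    rw [Finset.sum_const]
    simp
  unfold hilbert
  apply Module.finrank_le_of_rank_le
  have hb : Module.rank ℤ (degPart M (n - 2)) ≤ ((vals e).card : ℕ) := by
    apply rank_le
    intro s hs
    have h2 : LinearIndependent ℤ (fun i : s => ((GG e).card : ℤ) •
        ((i : degPart M (n - 2)) : ChowRing α)) := by
      have h3 : LinearIndependent ℤ (fun i : s => ((i : degPart M (n - 2)) : ChowRing α)) := by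
        exact hs.map' (Submodule.subtype _) (Submodule.ker_subtype _)
      rw [Fintype.linearIndependent_iff] at h3 ⊢
      intro c hc i
      have h4 := h3 (fun i => c i * ((GG e).card : ℤ)) (by
        rw [← hc]
        apply Finset.sum_congr rfl
        intro i _
        rw [mul_smul]) i
      rcases mul_eq_zero.1 h4 with h5 | h5
      · exact h5
      · exact absurd h5 hpos
    let v : s → Submodule.span ℤ (vals e : Set (ChowRing α)) := fun i =>
      ⟨((GG e).card : ℤ) • ((i : degPart M (n - 2)) : ChowRing α), by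
        rw [← hfix _ i.1.2.1]
        exact hN _ i.1.2.2⟩
    have h6 : LinearIndependent ℤ v := by
      apply LinearIndependent.of_comp (Submodule.span ℤ (vals e : Set (ChowRing α))).subtype
      exact h2
    have h7 := h6.fintype_card_le_finrank
    rw [Fintype.card_coe] at h7
    exact h7.trans (finrank_span_finset_le_card (vals e))
  exact hb.trans (by exact_mod_cast card_vals e)

end Pool.Agent.E8helper55.RN
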