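import Pool.Agent.E8helper55.RN.Func

/-!
# A family of linearly independent elements in degree `n - 3` (helper file)
-/

namespace Pool.Agent.E8helper55.RN

open Finset MvPolynomial

set_option linter.unusedSectionVars false

variable {α : Type} [Fintype α] [DecidableEq α] {n : ℕ}

/-- the levels different from `l` and `l'` -/
def Lev (n l l' : ℕ) : Finset ℕ := ((Icc 1 (n - 1)).erase l).erase l'

theorem Lev_comm (n l l' : ℕ) : Lev n l l' = Lev n l' l := by
  unfold Lev; exact Finset.erase_right_comm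

theorem mem_Lev {n l l' s : ℕ} : s ∈ Lev n l l' ↔ s ≠ l' ∧ s ≠ l ∧ 1 ≤ s ∧ s ≤ n - 1 := by
  unfold Lev
  rw [mem_erase, mem_erase, mem_Icc]

theorem card_Lev {n l l' : ℕ} (h1 : 1 ≤ l) (h2 : l < n) (h1' : 1 ≤ l') (h2' : l' < n)
    (hne : l ≠ l') : (Lev n l l').card + 3 = n := by
  unfold Lev
  rw [Finset.card_erase_of_mem, Finset.card_erase_of_mem, Nat.card_Icc]
  · have : l + l' ≥ 3 := by omega
    omega
  · rw [mem_Icc]; omega
  · rw [mem_erase, mem_Icc]; omega

/-- product of the `Y` polynomials over all levels except two -/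
noncomputable def Fpoly (r : Finset α → ℕ) (ρ : ℕ → ℕ) (L : Finset ℕ) :
    MvPolynomial (Idx α) ℤ :=
  ∏ s ∈ L, ∑ S ∈ Yset r (ρ s) s, X S

/-- the condition on an ordering -/
def Cond (r : Finset α → ℕ) (ρ : ℕ → ℕ) (L : Finset ℕ) (S T : Finset α) (w : Fin n ≃ α) : Prop :=
  S = pref w S.card ∧ T = pref w T.card ∧ ∀ s ∈ L, r (pref w s) = ρ s

open Classical in
theorem Psi_value (hcard : Fintype.card α = n) {t : α → ℚ} (ht : Function.Injective t)
    (r : Finset α → ℕ) (ρ : ℕ → ℕ) {l l' : ℕ} (h1 : 1 ≤ l) (h2 : l < n) (h1' : 1 ≤ l')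
    (h2' : l' < n) (hne : l ≠ l') (S T : Idx α) :
    Psi n t (X S * X T * Fpoly r ρ (Lev n l l'))
      = ∑ w : Fin n ≃ α, if Cond r ρ (Lev n l l') S.1 T.1 w then
          (del t w S.1.card * del t w T.1.card) / (del t w l * del t w l') else 0 := by
  have hcl := card_Lev h1 h2 h1' h2' hne
  have h0 : (0 : ℕ) ∉ insert n (Lev n l l') := by
    rw [mem_insert, mem_Lev]; omega
  have hnL : n ∉ Lev n l l' := by rw [mem_Lev]; omega
  set F : ℕ → Finset (Idx α) := fun s => if s = 0 then {S} else if s = n then {T}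
    else Yset r (ρ s) s with hF
  have hprod : X S * X T * Fpoly r ρ (Lev n l l')
      = ∏ s ∈ insert 0 (insert n (Lev n l l')), ∑ S ∈ F s, (X S : MvPolynomial (Idx α) ℤ) := by
    rw [Finset.prod_insert h0, Finset.prod_insert hnL]
    have e1 : F 0 = {S} := by simp [hF]
    have e2 : F n = {T} := by
      have hn0 : n ≠ 0 := by omega
      simp [hF, hn0]
    rw [e1, e2, Finset.sum_singleton, Finset.sum_singleton, mul_assoc]
    congr 2
    unfold Fpoly
    apply Finset.prod_congr rfl
    intro s hs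
    rw [mem_Lev] at hs
    rw [hF]; simp only; rw [if_neg (by omega), if_neg (by omega)]
  rw [hprod, Psi_prod t _ F (by
    rw [Finset.card_insert_of_notMem h0, Finset.card_insert_of_notMem hnL]; omega), Phi_apply]
  apply Finset.sum_congr rfl
  intro w _
  rw [Finset.prod_apply, Finset.prod_insert h0, Finset.prod_insert hnL]
  have e1 : F 0 = {S} := by simp [hF]
  have e2 : F n = {T} := by
    have hn0 : n ≠ 0 := by omega
    simp [hF, hn0]
  rw [e1, e2, Finset.sum_singleton, Finset.sum_singleton]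
  have e3 : ∏ s ∈ Lev n l l', (∑ S ∈ F s, locX (n := n) t S.1) w
      = ∏ s ∈ Lev n l l', (if r (pref w s) = ρ s then del t w s else 0) := by
    apply Finset.prod_congr rfl
    intro s hs
    rw [mem_Lev] at hs
    have e4 : F s = Yset r (ρ s) s := by
      rw [hF]; simp only; rw [if_neg (by omega), if_neg (by omega)]
    rw [e4, sum_Yset_loc hcard t r (ρ s) s (by omega) (by omega) w]
  rw [e3, Finset.prod_ite_zero]
  have hden : den t w = del t w l * del t w l' * ∏ s ∈ Lev n l l', del t w s := by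
    unfold den
    rw [← Finset.mul_prod_erase (Icc 1 (n - 1)) (del t w) (a := l) (by rw [mem_Icc]; omega),
      ← Finset.mul_prod_erase ((Icc 1 (n - 1)).erase l) (del t w) (a := l')
        (by rw [mem_erase, mem_Icc]; omega), ← mul_assoc]
    rfl
  unfold locX Cond
  by_cases hS : S.1 = pref w S.1.card
  · by_cases hT : T.1 = pref w T.1.card
    · by_cases hL : ∀ s ∈ Lev n l l', r (pref w s) = ρ s
      · rw [if_pos hS, if_pos hT, if_pos hL, if_pos ⟨hS, hT, hL⟩, hden]
        have h5 : ∏ s ∈ Lev n l l', del t w s ≠ 0 := by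
          rw [Finset.prod_ne_zero_iff]
          intro s hs
          rw [mem_Lev] at hs
          exact del_ne_zero ht w (by omega) (by omega)
        have h6 := del_ne_zero ht w h1 h2
        have h7 := del_ne_zero ht w h1' h2'
        field_simp
      · rw [if_neg hL, mul_zero, mul_zero, zero_div, if_neg]
        rintro ⟨_, _, h⟩; exact hL h
    · rw [if_neg hT, zero_mul, mul_zero, zero_div, if_neg]
      rintro ⟨_, h, _⟩; exact hT h
  · rw [if_neg hS, zero_mul, zero_div, if_neg]
    rintro ⟨h, _, _⟩; exact hS h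

/-- if the missing level `l` is far from all the others the value is zero -/
theorem Psi_far (hcard : Fintype.card α = n) {t : α → ℚ} (ht : Function.Injective t)
    (r : Finset α → ℕ) (ρ : ℕ → ℕ) {l l' : ℕ} (h1 : 1 ≤ l) (h2 : l < n) (h1' : 1 ≤ l')
    (h2' : l' < n) (S T : Idx α) (hfar : l' + 2 ≤ l ∨ l + 2 ≤ l')
    (hS : S.1.card + 2 ≤ l ∨ l + 2 ≤ S.1.card) (hT : T.1.card + 2 ≤ l ∨ l + 2 ≤ T.1.card) :
    Psi n t (X S * X T * Fpoly r ρ (Lev n l l')) = 0 := by
  classical
  rw [Psi_value hcard ht r ρ h1 h2 h1' h2' (by omega)]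
  apply sum_eq_zero_of_swp l h1 h2
  intro w
  have hiff : Cond r ρ (Lev n l l') S.1 T.1 (swp w l h1 h2) ↔ Cond r ρ (Lev n l l') S.1 T.1 w := by
    unfold Cond
    rw [pref_swp w l h1 h2 (by omega), pref_swp w l h1 h2 (by omega)]
    have : (∀ s ∈ Lev n l l', r (pref (swp w l h1 h2) s) = ρ s) ↔
        (∀ s ∈ Lev n l l', r (pref w s) = ρ s) := by
      constructor
      · intro h s hs
        have h' := h s hs
        rw [mem_Lev] at hs
        rwa [pref_swp w l h1 h2 (by omega)] at h'
      · intro h s hs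
        have h' := h s hs
        rw [mem_Lev] at hs
        rwa [pref_swp w l h1 h2 (by omega)]
    rw [this]
  have c1 : 1 ≤ S.1.card := Finset.card_pos.2 S.2
  have c2 : 1 ≤ T.1.card := Finset.card_pos.2 T.2
  rw [del_swp_self, del_swp_of_far t w l h1 h2 c1 hS, del_swp_of_far t w l h1 h2 c2 hT,
    del_swp_of_far t w l h1 h2 h1' hfar]
  by_cases h : Cond r ρ (Lev n l l') S.1 T.1 w
  · rw [if_pos h, if_pos (hiff.2 h), neg_mul, div_neg]
  · rw [if_neg h, if_neg (fun h' => h (hiff.1 h')), neg_zero]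

open Classical in
theorem Psi_match (hcard : Fintype.card α = n) {t : α → ℚ} (ht : Function.Injective t)
    (r : Finset α → ℕ) (ρ : ℕ → ℕ) {l l' : ℕ} (h1 : 1 ≤ l) (h2 : l < n) (h1' : 1 ≤ l')
    (h2' : l' < n) (hne : l ≠ l') (S T : Idx α) (hS : S.1.card = l) (hT : T.1.card = l') :
    Psi n t (X S * X T * Fpoly r ρ (Lev n l l'))
      = ((univ.filter (fun w : Fin n ≃ α => Cond r ρ (Lev n l l') S.1 T.1 w)).card : ℚ) := by
  rw [Psi_value hcard ht r ρ h1 h2 h1' h2' hne, Finset.card_filter]
  push_cast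
  apply Finset.sum_congr rfl
  intro w _
  rw [hS, hT]
  have h6 := del_ne_zero ht w h1 h2
  have h7 := del_ne_zero ht w h1' h2'
  rw [div_self (mul_ne_zero h6 h7)]

/-- an injective rational function on `α` -/
theorem exists_inj (α : Type) [Fintype α] : ∃ t : α → ℚ, Function.Injective t := by
  have e : α ≃ Fin (Fintype.card α) := Fintype.equivFin α
  refine ⟨fun a => ((e a : ℕ) : ℚ), fun a b h => ?_⟩
  simp only [Nat.cast_inj] at h
  exact e.injective (Fin.ext h)

/-- the data of an element of degree `n - 3` together with a dual pair of sets -/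
structure Elt (r : Finset α → ℕ) (n : ℕ) where
  ρ : ℕ → ℕ
  l : ℕ
  l' : ℕ
  S : Idx α
  T : Idx α
  hl : 1 ≤ l
  hl' : l + 2 ≤ l'
  hl'' : l' < n
  even : l % 2 = 0
  even' : l' % 2 = 0
  hS : S.1.card = l
  hT : T.1.card = l'
  ex : ∃ w : Fin n ≃ α, Cond r ρ (Lev n l l') S.1 T.1 w

theorem linInd (hcard : Fintype.card α = n) (r : Finset α → ℕ) {I : Type} [Fintype I]
    (E : I → Elt r n) (u : I → ℕ)
    (htri : ∀ i j, (E i).l = (E j).l → (E i).l' = (E j).l' →
      (∃ w : Fin n ≃ α, Cond r (E i).ρ (Lev n (E i).l (E i).l') (E j).S.1 (E j).T.1 w) →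
      u j ≤ u i ∧ (u j = u i → j = i)) :
    LinearIndependent ℤ (fun i => Ideal.Quotient.mk (chowIdeal α)
      (Fpoly r (E i).ρ (Lev n (E i).l (E i).l'))) := by
  classical
  obtain ⟨t, ht⟩ := exists_inj α
  rw [Fintype.linearIndependent_iff]
  intro g hg
  by_contra hcon
  push Not at hcon
  obtain ⟨j0, hj0⟩ := hcon
  -- choose `j` with `g j ≠ 0` and `u j` maximal
  obtain ⟨j, hj, hmax⟩ := Finset.exists_max_image (univ.filter (fun i => g i ≠ 0)) u
    ⟨j0, by simp [hj0]⟩
  simp only [mem_filter, mem_univ, true_and] at hj hmax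
  have hl := (E j).hl
  have hl' := (E j).hl'
  have hl'' := (E j).hl''
  have hmem : ∑ i, g i • Fpoly r (E i).ρ (Lev n (E i).l (E i).l') ∈ chowIdeal α := by
    rw [← Ideal.Quotient.eq_zero_iff_mem, map_sum, ← hg]
    apply Finset.sum_congr rfl
    intro i _
    rw [map_zsmul]
  have hz := Psi_ideal hcard (by omega) ht hmem (X (E j).S * X (E j).T)
  rw [Finset.mul_sum, map_sum] at hz
  rw [Finset.sum_eq_single j] at hz
  · rw [mul_smul_comm, map_smul, Psi_match hcard ht r _ (E j).hl (by omega) (by omega) (by omega)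
      (by omega) _ _ (E j).hS (E j).hT] at hz
    obtain ⟨w, hw⟩ := (E j).ex
    have hpos : 0 < (univ.filter (fun w : Fin n ≃ α => Cond r (E j).ρ (Lev n (E j).l (E j).l')
        (E j).S.1 (E j).T.1 w)).card := Finset.card_pos.2 ⟨w, by simp [hw]⟩
    rw [zsmul_eq_mul] at hz
    rcases mul_eq_zero.1 hz with h | h
    · exact hj (by exact_mod_cast h)
    · have : (univ.filter (fun w : Fin n ≃ α => Cond r (E j).ρ (Lev n (E j).l (E j).l')
        (E j).S.1 (E j).T.1 w)).card = 0 := by exact_mod_cast h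
      omega
  · intro i _ hij
    rw [mul_smul_comm, map_smul]
    by_cases hgi : g i = 0
    · rw [hgi, zero_smul]
    have k1 := (E i).hl
    have k2 := (E i).hl'
    have k3 := (E i).hl''
    have k4 := (E i).even
    have k5 := (E i).even'
    have m4 := (E j).even
    have m5 := (E j).even'
    have s1 := (E j).hS
    have s2 := (E j).hT
    by_cases hlev : (E i).l = (E j).l ∧ (E i).l' = (E j).l'
    · rw [Psi_match hcard ht r _ (E i).hl (by omega) (by omega) (by omega)
        (by omega) _ _ (by omega) (by omega)]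
      by_cases hex : ∃ w : Fin n ≃ α, Cond r (E i).ρ (Lev n (E i).l (E i).l') (E j).S.1
          (E j).T.1 w
      · exfalso
        have h5 := htri i j hlev.1 hlev.2 hex
        have h6 := hmax i hgi
        exact hij (h5.2 (le_antisymm h5.1 h6)).symm
      · have h7 : univ.filter (fun w : Fin n ≃ α => Cond r (E i).ρ (Lev n (E i).l (E i).l')
            (E j).S.1 (E j).T.1 w) = ∅ := by
          ext w
          simp only [mem_filter, mem_univ, true_and, Finset.notMem_empty, iff_false]
          exact fun h => hex ⟨w, h⟩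
        rw [h7, Finset.card_empty, Nat.cast_zero, smul_zero]
    · by_cases hc : (E i).l = (E j).l ∨ (E i).l = (E j).l'
      · rw [Lev_comm, Psi_far hcard ht r _ (by omega) (by omega) (by omega) (by omega) _ _
          (by omega) (by omega) (by omega), smul_zero]
      · push Not at hc
        rw [Psi_far hcard ht r _ (by omega) (by omega) (by omega) (by omega) _ _
          (by omega) (by omega) (by omega), smul_zero]
  · intro h; exact absurd (Finset.mem_univ j) h

end Pool.Agent.E8helper55.RN
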