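import Pool.Agent.E8helper55.RN.Defs
import Pool.Agent.E8helper55.RN.Lower

/-!
# Graded pieces of the Chow ring (helper file)
-/

namespace Pool.Agent.E8helper55.RN

open Finset MvPolynomial

set_option linter.unusedSectionVars false

variable {α : Type} [Fintype α] [DecidableEq α] {n : ℕ}

/-- the variables of the Chow ring, with `1` for the empty set -/
noncomputable def cx (α : Type) [Fintype α] [DecidableEq α] (S : Finset α) : ChowRing α :=
  if h : S.Nonempty then xvar α ⟨S, h⟩ else 1

theorem cx_inc (S T : Finset α) (h1 : ¬ S ⊆ T) (h2 : ¬ T ⊆ S) : cx α S * cx α T = 0 := by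
  have hS : S.Nonempty := by
    rw [Finset.nonempty_iff_ne_empty]; rintro rfl; exact h1 (Finset.empty_subset _)
  have hT : T.Nonempty := by
    rw [Finset.nonempty_iff_ne_empty]; rintro rfl; exact h2 (Finset.empty_subset _)
  unfold cx xvar
  rw [dif_pos hS, dif_pos hT, ← map_mul, Ideal.Quotient.eq_zero_iff_mem]
  apply Ideal.subset_span
  left
  exact ⟨⟨S, hS⟩, ⟨T, hT⟩, h1, h2, rfl⟩

theorem cx_lin (e : α) : ∑ S ∈ univ.filter (fun S : Finset α => e ∈ S), cx α S = 0 := by
  have h6 : univ.filter (fun S : Finset α => e ∈ S)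
      = (univ.filter (fun S : Idx α => e ∈ S.1)).map (Function.Embedding.subtype _) := by
    ext S
    simp only [mem_filter, mem_univ, true_and, mem_map, Function.Embedding.subtype_apply]
    constructor
    · intro h; exact ⟨⟨S, ⟨e, h⟩⟩, h, rfl⟩
    · rintro ⟨S', h, rfl⟩; exact h
  rw [h6, Finset.sum_map]
  have h7 : ∑ S ∈ univ.filter (fun S : Idx α => e ∈ S.1), cx α (Function.Embedding.subtype _ S)
      = Ideal.Quotient.mk (chowIdeal α) (∑ S ∈ univ.filter (fun S : Idx α => e ∈ S.1), X S) := by
    rw [map_sum]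
    apply Finset.sum_congr rfl
    intro S _
    simp only [Function.Embedding.subtype_apply]
    unfold cx xvar
    rw [dif_pos S.2]
  rw [h7, Ideal.Quotient.eq_zero_iff_mem]
  apply Ideal.subset_span
  right
  exact ⟨e, rfl⟩

/-- the Chow ring as a family with the required relations -/
noncomputable def chowData (α : Type) [Fintype α] [DecidableEq α] : Data ℤ (ChowRing α) α where
  x := cx α
  t := fun _ => 0
  inc := cx_inc
  lin := by
    intro e
    rw [cx_lin, map_zero]

theorem mk_monomial (m : Idx α →₀ ℕ) :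
    Ideal.Quotient.mk (chowIdeal α) (monomial m (1 : ℤ))
      = ((m.toMultiset.map (fun S : Idx α => S.1)).map (cx α)).prod := by
  induction m using Finsupp.induction_linear with
  | zero => simp
  | add f g hf hg =>
    have h1 : monomial (f + g) (1 : ℤ) = monomial f 1 * monomial g 1 := by
      rw [monomial_mul, mul_one]
    rw [h1, map_mul, hf, hg, Finsupp.toMultiset_add, Multiset.map_add, Multiset.map_add,
      Multiset.prod_add]
  | single S k =>
    rw [← X_pow_eq_monomial, map_pow, Finsupp.toMultiset_single, Multiset.map_nsmul,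
      Multiset.map_nsmul, Multiset.prod_nsmul, Multiset.map_singleton, Multiset.map_singleton,
      Multiset.prod_singleton]
    congr 1
    unfold cx xvar
    rw [dif_pos S.2]

theorem gradedPiece_le_N (hcard : Fintype.card α = n) (d : ℕ) :
    gradedPiece α d ≤ (chowData α).N d := by
  rintro z ⟨p, hp, rfl⟩
  rw [SetLike.mem_coe, mem_homogeneousSubmodule] at hp
  rw [p.as_sum, map_sum]
  apply Submodule.sum_mem
  intro m hm
  have hdeg : m.degree = d := by
    by_contra hne
    exact (mem_support_iff.1 hm) (hp.coeff_eq_zero hne)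
  have h1 : monomial m (coeff m p) = (coeff m p) • (monomial m (1 : ℤ)) := by
    rw [smul_monomial, smul_eq_mul, mul_one]
  rw [h1, map_smul]
  apply Submodule.smul_mem
  have h2 : (Ideal.Quotient.mkₐ ℤ (chowIdeal α)).toLinearMap (monomial m (1 : ℤ))
      = ((m.toMultiset.map (fun S : Idx α => S.1)).map (cx α)).prod := mk_monomial m
  rw [h2]
  have h3 := (chowData α).prod_mem_N hcard (fun _ => rfl) (m.toMultiset.map (fun S : Idx α => S.1))
    (by
      intro S hS
      rw [Multiset.mem_map] at hS
      obtain ⟨S', _, rfl⟩ := hS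
      exact S'.2)
  rw [Multiset.card_map, Finsupp.card_toMultiset] at h3
  have h4 : (m.sum fun _ => id) = d := by
    rw [← hdeg]; rfl
  rw [h4] at h3
  exact h3

theorem gradedPiece_fg (d : ℕ) : (gradedPiece α d).FG :=
  (homogeneousSubmodule_fg _ _ d).map _

theorem degPart_le (M : Matroid α) (d : ℕ) : degPart M d ≤ gradedPiece α d := fun _ h => h.2

instance finite_piece (M : Matroid α) (d : ℕ) : Module.Finite ℤ (degPart M d) := by
  have : Module.Finite ℤ ↥(gradedPiece α d) := Module.Finite.iff_fg.2 (gradedPiece_fg d)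
  exact Module.Finite.of_injective (Submodule.inclusion (degPart_le M d))
    (Submodule.inclusion_injective _)

/-- lower bound for the Hilbert function -/
theorem card_le_hilbert (M : Matroid α) (d : ℕ) {I : Type} [Fintype I] (v : I → ChowRing α)
    (hv : LinearIndependent ℤ v) (hR : ∀ i, v i ∈ rankNullityRing M)
    (hd : ∀ i, v i ∈ gradedPiece α d) : Fintype.card I ≤ hilbert M d := by
  let v' : I → degPart M d := fun i => ⟨v i, hR i, hd i⟩
  have h1 : LinearIndependent ℤ v' := by
    apply LinearIndependent.of_comp (degPart M d).subtype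
    exact hv
  exact h1.fintype_card_le_finrank

theorem yvar_mem (M : Matroid α) (i j : ℕ) (hi : i ≤ Fintype.card α) (hj : j ≤ Fintype.card α) :
    yvar M i j ∈ rankNullityRing M :=
  Algebra.subset_adjoin ⟨i, j, hi, hj, rfl⟩

theorem mk_sum_Yset (M : Matroid α) (r : Finset α → ℕ) (hr : ∀ S : Finset α, M.eRk (S : Set α) = (r S : ℕ∞))
    (a s : ℕ) (h : a ≤ s) :
    Ideal.Quotient.mk (chowIdeal α) (∑ S ∈ Yset r a s, X S) = yvar M a (s - a) := by
  classical
  rw [map_sum]
  unfold yvar Yset
  apply Finset.sum_congr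
  · ext S
    simp only [mem_filter, mem_univ, true_and]
    rw [hr, Nat.cast_inj]
    constructor
    · rintro ⟨h1, h2⟩; exact ⟨h1, by omega⟩
    · rintro ⟨h1, h2⟩; exact ⟨h1, by omega⟩
  · intro S _; rfl

theorem mk_Fpoly_mem (hcard : Fintype.card α = n) (M : Matroid α) (r : Finset α → ℕ)
    (hr : ∀ S : Finset α, M.eRk (S : Set α) = (r S : ℕ∞)) (ρ : ℕ → ℕ) (L : Finset ℕ)
    (hρ : ∀ s ∈ L, ρ s ≤ s) (hL : ∀ s ∈ L, s ≤ n) :
    Ideal.Quotient.mk (chowIdeal α) (Fpoly r ρ L) ∈ rankNullityRing M := by
  unfold Fpoly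
  rw [map_prod]
  apply Subalgebra.prod_mem
  intro s hs
  rw [mk_sum_Yset M r hr _ _ (hρ s hs)]
  have h1 := hρ s hs
  have h2 := hL s hs
  exact yvar_mem M _ _ (by omega) (by omega)

theorem mk_Fpoly_graded (r : Finset α → ℕ) (ρ : ℕ → ℕ) (L : Finset ℕ) :
    Ideal.Quotient.mk (chowIdeal α) (Fpoly r ρ L) ∈ gradedPiece α L.card := by
  refine ⟨Fpoly r ρ L, ?_, rfl⟩
  rw [SetLike.mem_coe, mem_homogeneousSubmodule]
  unfold Fpoly
  have h1 := IsHomogeneous.prod L (fun s => ∑ S ∈ Yset r (ρ s) s, (X S : MvPolynomial (Idx α) ℤ))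
    (fun _ => 1) (by
      intro s _
      apply IsHomogeneous.sum
      intro S _
      exact isHomogeneous_X _ _)
  rw [Finset.sum_const, smul_eq_mul, mul_one] at h1
  exact h1

/-- the top degree -/
theorem hilbert_top (hcard : Fintype.card α = n) (hn : 2 ≤ n) (M : Matroid α)
    (r : Finset α → ℕ) (hr : ∀ S : Finset α, M.eRk (S : Set α) = (r S : ℕ∞))
    (hrle : ∀ S, r S ≤ S.card) : 1 ≤ hilbert M (n - 1) := by
  classical
  obtain ⟨t, ht⟩ := exists_inj α
  let w : Fin n ≃ α := (Fintype.equivFinOfCardEq hcard).symm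
  let ρ : ℕ → ℕ := fun s => r (pref w s)
  have hval : Psi n t (Fpoly r ρ (Icc 1 (n - 1)))
      = ((univ.filter (fun v : Fin n ≃ α => ∀ s ∈ Icc 1 (n - 1), r (pref v s) = ρ s)).card : ℚ) := by
    unfold Fpoly
    rw [Psi_prod t _ _ (by rw [Nat.card_Icc]; omega), Phi_apply, Finset.card_filter]
    push_cast
    apply Finset.sum_congr rfl
    intro v _
    rw [Finset.prod_apply]
    have e3 : ∏ s ∈ Icc 1 (n - 1), (∑ S ∈ Yset r (ρ s) s, locX (n := n) t S.1) v
        = ∏ s ∈ Icc 1 (n - 1), (if r (pref v s) = ρ s then del t v s else 0) := by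
      apply Finset.prod_congr rfl
      intro s hs
      rw [mem_Icc] at hs
      rw [sum_Yset_loc hcard t r (ρ s) s (by omega) (by omega) v]
    rw [e3, Finset.prod_ite_zero]
    split_ifs with h
    · unfold den
      apply div_self
      rw [Finset.prod_ne_zero_iff]
      intro s hs
      rw [mem_Icc] at hs
      exact del_ne_zero ht v (by omega) (by omega)
    · rw [zero_div]
  have hpos : 0 < (univ.filter (fun v : Fin n ≃ α => ∀ s ∈ Icc 1 (n - 1),
      r (pref v s) = ρ s)).card := Finset.card_pos.2 ⟨w, by simp [ρ]⟩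
  have hLI : LinearIndependent ℤ (fun _ : Unit => Ideal.Quotient.mk (chowIdeal α)
      (Fpoly r ρ (Icc 1 (n - 1)))) := by
    rw [Fintype.linearIndependent_iff]
    intro g hg i
    have hmem : g () • Fpoly r ρ (Icc 1 (n - 1)) ∈ chowIdeal α := by
      rw [← Ideal.Quotient.eq_zero_iff_mem, map_zsmul, ← hg]
      simp
    have hz := Psi_ideal hcard hn ht hmem 1
    rw [one_mul, map_smul, hval, zsmul_eq_mul] at hz
    rcases mul_eq_zero.1 hz with h | h
    · exact_mod_cast h
    · have : (univ.filter (fun v : Fin n ≃ α => ∀ s ∈ Icc 1 (n - 1),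
        r (pref v s) = ρ s)).card = 0 := by exact_mod_cast h
      omega
  have h1 := card_le_hilbert M (n - 1) _ hLI
    (fun _ => mk_Fpoly_mem hcard M r hr ρ _ (by
      intro s hs
      rw [mem_Icc] at hs
      have := hrle (pref w s)
      rwa [card_pref w (by omega)] at this) (by
      intro s hs
      rw [mem_Icc] at hs; omega))
    (fun _ => by
      have := mk_Fpoly_graded r ρ (Icc 1 (n - 1))
      rw [Nat.card_Icc] at this
      simpa using this)
  simpa using h1

end Pool.Agent.E8helper55.RN
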