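import Mathlib

/-!
# Rank-nullity rings of matroids: definitions

`ChowRing α` is the Chow ring of the permutohedral variety of the finite set `α`, presented by
variables `x_S` (`S` a nonempty subset), the products `x_S x_T` of incomparable sets and the linear
forms `∑_{S ∋ e} x_S`. `rankNullityRing M` is the subring generated by the sums `y_{i,j}` of the
`x_S` with `rk S = i` and `null S = j`.
-/

namespace Pool.Agent.E8helper55.RN

open Finset MvPolynomial

/-- the index set of the variables: nonempty subsets -/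
abbrev Idx (α : Type) := {S : Finset α // S.Nonempty}

/-- the ideal of relations -/
noncomputable def chowIdeal (α : Type) [Fintype α] [DecidableEq α] :
    Ideal (MvPolynomial (Idx α) ℤ) :=
  Ideal.span ({p | ∃ S T : Idx α, ¬ S.1 ⊆ T.1 ∧ ¬ T.1 ⊆ S.1 ∧ p = X S * X T} ∪
    {p | ∃ e : α, p = ∑ S ∈ univ.filter (fun S : Idx α => e ∈ S.1), X S})

/-- the Chow ring `A^*(U_{n,n})` of the permutohedral variety -/
abbrev ChowRing (α : Type) [Fintype α] [DecidableEq α] := MvPolynomial (Idx α) ℤ ⧸ chowIdeal α

/-- the class of the variable `x_S` -/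
noncomputable def xvar (α : Type) [Fintype α] [DecidableEq α] (S : Idx α) : ChowRing α :=
  Ideal.Quotient.mk (chowIdeal α) (X S)

/-- the graded piece `A^d`: the image of the homogeneous polynomials of degree `d` -/
noncomputable def gradedPiece (α : Type) [Fintype α] [DecidableEq α] (d : ℕ) :
    Submodule ℤ (ChowRing α) :=
  (homogeneousSubmodule (Idx α) ℤ d).map (Ideal.Quotient.mkₐ ℤ (chowIdeal α)).toLinearMap

open Classical in
/-- `y_{i,j}`, the sum of the `x_S` over the nonempty `S` with rank `i` and nullity `j` -/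
noncomputable def yvar {α : Type} [Fintype α] [DecidableEq α] (M : Matroid α) (i j : ℕ) :
    ChowRing α :=
  ∑ S ∈ univ.filter (fun S : Idx α => M.eRk (S.1 : Set α) = (i : ℕ∞) ∧ S.1.card = i + j),
    xvar α S

/-- the rank-nullity ring `R^*(M)` -/
noncomputable def rankNullityRing {α : Type} [Fintype α] [DecidableEq α] (M : Matroid α) :
    Subalgebra ℤ (ChowRing α) :=
  Algebra.adjoin ℤ {z | ∃ i j : ℕ, i ≤ Fintype.card α ∧ j ≤ Fintype.card α ∧ z = yvar M i j}

/-- the degree `d` part `R^d(M) = R^*(M) ∩ A^d` -/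
noncomputable def degPart {α : Type} [Fintype α] [DecidableEq α] (M : Matroid α) (d : ℕ) :
    Submodule ℤ (ChowRing α) where
  carrier := {z | z ∈ rankNullityRing M ∧ z ∈ gradedPiece α d}
  add_mem' := fun ha hb => ⟨add_mem ha.1 hb.1, add_mem ha.2 hb.2⟩
  zero_mem' := ⟨zero_mem _, zero_mem _⟩
  smul_mem' := fun c _ ha => ⟨zsmul_mem ha.1 c, zsmul_mem ha.2 c⟩

/-- the Hilbert function `h_M(d) = rank R^d(M)` -/
noncomputable def hilbert {α : Type} [Fintype α] [DecidableEq α] (M : Matroid α) (d : ℕ) : ℕ :=
  Module.finrank ℤ (degPart M d)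

end Pool.Agent.E8helper55.RN
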