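import Mathlib

/-!
# Orderings, prefixes and chains (helper file)

`w : Fin n ≃ α` is an ordering of the finite type `α`, `pref w s` the set of its first `s`
elements.
-/

namespace Pool.Agent.E8helper55.RN

open Finset

set_option linter.unusedSectionVars false

variable {α : Type} [Fintype α] [DecidableEq α] {n : ℕ}

/-- the set of the first `s` elements of the ordering `w` -/
def pref (w : Fin n ≃ α) (s : ℕ) : Finset α := univ.filter (fun a => ((w.symm a : Fin n) : ℕ) < s)

theorem mem_pref {w : Fin n ≃ α} {s : ℕ} {a : α} : a ∈ pref w s ↔ ((w.symm a : Fin n) : ℕ) < s := by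
  simp [pref]

theorem pref_mono (w : Fin n ≃ α) {s t : ℕ} (h : s ≤ t) : pref w s ⊆ pref w t := by
  intro a ha
  rw [mem_pref] at ha ⊢
  omega

theorem pref_zero (w : Fin n ≃ α) : pref w 0 = ∅ := by
  ext a; simp [mem_pref]

theorem pref_top (w : Fin n ≃ α) {s : ℕ} (h : n ≤ s) : pref w s = univ := by
  ext a
  simp only [mem_pref, mem_univ, iff_true]
  exact lt_of_lt_of_le (w.symm a).2 h

theorem card_pref (w : Fin n ≃ α) {s : ℕ} (h : s ≤ n) : (pref w s).card = s := by
  have h1 : pref w s = (univ.filter (fun i : Fin n => (i : ℕ) < s)).map w.toEmbedding := by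
    ext a
    simp only [mem_pref, mem_map, mem_filter, mem_univ, true_and, Equiv.coe_toEmbedding]
    constructor
    · intro h; exact ⟨w.symm a, h, by simp⟩
    · rintro ⟨i, hi, rfl⟩; simpa using hi
  rw [h1, card_map]
  have h2 : (univ.filter (fun i : Fin n => (i : ℕ) < s)) = (univ : Finset (Fin s)).map
      (Fin.castLEEmb h) := by
    ext i
    simp only [mem_filter, mem_univ, true_and, mem_map, Fin.castLEEmb_apply]
    constructor
    · intro hi; exact ⟨⟨i, hi⟩, by ext; simp⟩
    · rintro ⟨j, rfl⟩; simp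
  rw [h2, card_map, card_univ, Fintype.card_fin]

theorem apply_mem_pref (w : Fin n ≃ α) {s m : ℕ} (hm : m < n) : w ⟨m, hm⟩ ∈ pref w s ↔ m < s := by
  simp [mem_pref]

theorem pref_injOn (w : Fin n ≃ α) {s t : ℕ} (hs : s ≤ n) (ht : t ≤ n)
    (h : pref w s = pref w t) : s = t := by
  rw [← card_pref w hs, ← card_pref w ht, h]

theorem eq_pref_of_initial (w : Fin n ≃ α) (S : Finset α)
    (h : ∀ a ∈ S, ∀ b, b ∉ S → w.symm a < w.symm b) : S = pref w S.card := by
  have hcard : Fintype.card α = n := by rw [← Fintype.card_congr w, Fintype.card_fin]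
  have hle : S.card ≤ n := by rw [← hcard]; exact Finset.card_le_univ S
  apply Finset.eq_of_subset_of_card_le
  · intro a ha
    rw [mem_pref]
    have hsub : pref w ((w.symm a : ℕ) + 1) ⊆ S := by
      intro c hc
      rw [mem_pref] at hc
      by_contra hcS
      have := h a ha c hcS
      rw [Fin.lt_def] at this
      omega
    have := Finset.card_le_card hsub
    rw [card_pref w (by have := (w.symm a).2; omega)] at this
    omega
  · rw [card_pref w hle]

/-- every chain of subsets consists of prefixes of one ordering -/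
theorem exists_order (hcard : Fintype.card α = n) (C : Finset (Finset α))
    (hC : ∀ S ∈ C, ∀ T ∈ C, S ⊆ T ∨ T ⊆ S) :
    ∃ w : Fin n ≃ α, ∀ S ∈ C, S = pref w S.card := by
  classical
  let e : Fin n ≃ α := (Fintype.equivFinOfCardEq hcard).symm
  let lam : α → ℕ := fun a => (C.filter (fun S => a ∉ S)).card
  let f : Fin n → ℕ := fun i => lam (e i)
  let w : Fin n ≃ α := (Tuple.sort f).trans e
  have hmono : Monotone (lam ∘ w) := by
    have := Tuple.monotone_sort f
    intro i j hij
    exact this hij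
  refine ⟨w, fun S hS => eq_pref_of_initial w S fun a ha b hb => ?_⟩
  have hlt : lam a < lam b := by
    apply Finset.card_lt_card
    rw [Finset.ssubset_iff_of_subset]
    · exact ⟨S, by simp [hS, hb], by simp [ha]⟩
    · intro T hT
      simp only [mem_filter] at hT ⊢
      refine ⟨hT.1, fun hbT => ?_⟩
      rcases hC S hS T hT.1 with h | h
      · exact hT.2 (h ha)
      · exact hb (h hbT)
  by_contra hcon
  push Not at hcon
  have := hmono hcon
  simp only [Function.comp_apply, Equiv.apply_symm_apply] at this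
  omega

/-- exchange the elements at positions `l - 1` and `l` -/
def swp (w : Fin n ≃ α) (l : ℕ) (h1 : 1 ≤ l) (h2 : l < n) : Fin n ≃ α :=
  (Equiv.swap (⟨l - 1, by omega⟩ : Fin n) ⟨l, h2⟩).trans w

theorem swp_swp (w : Fin n ≃ α) (l : ℕ) (h1 : 1 ≤ l) (h2 : l < n) :
    swp (swp w l h1 h2) l h1 h2 = w := by
  ext i
  simp [swp]

theorem swp_ne (w : Fin n ≃ α) (l : ℕ) (h1 : 1 ≤ l) (h2 : l < n) :
    swp w l h1 h2 ≠ w := by
  intro h
  have h3 := congrArg (fun v : Fin n ≃ α => v ⟨l, h2⟩) h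
  simp only [swp, Equiv.trans_apply, Equiv.swap_apply_right] at h3
  have h4 := w.injective h3
  rw [Fin.mk.injEq] at h4
  omega

theorem pref_swp (w : Fin n ≃ α) (l : ℕ) (h1 : 1 ≤ l) (h2 : l < n) {s : ℕ} (hs : s ≠ l) :
    pref (swp w l h1 h2) s = pref w s := by
  ext a
  rw [mem_pref, mem_pref]
  simp only [swp, Equiv.symm_trans_apply, Equiv.symm_swap]
  rw [Equiv.swap_apply_def]
  split_ifs with h3 h4
  · rw [h3]; simp only; omega
  · rw [h4]; simp only; omega
  · rfl

theorem swp_apply_left (w : Fin n ≃ α) (l : ℕ) (h1 : 1 ≤ l) (h2 : l < n) :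
    swp w l h1 h2 ⟨l - 1, by omega⟩ = w ⟨l, h2⟩ := by
  simp [swp]

theorem swp_apply_right (w : Fin n ≃ α) (l : ℕ) (h1 : 1 ≤ l) (h2 : l < n) :
    swp w l h1 h2 ⟨l, h2⟩ = w ⟨l - 1, by omega⟩ := by
  simp [swp]

theorem swp_apply_of_ne (w : Fin n ≃ α) (l : ℕ) (h1 : 1 ≤ l) (h2 : l < n) {m : ℕ} (hm : m < n)
    (h3 : m ≠ l - 1) (h4 : m ≠ l) : swp w l h1 h2 ⟨m, hm⟩ = w ⟨m, hm⟩ := by
  simp only [swp, Equiv.trans_apply]
  rw [Equiv.swap_apply_of_ne_of_ne]
  · intro h; rw [Fin.mk.injEq] at h; exact h3 h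
  · intro h; rw [Fin.mk.injEq] at h; exact h4 h

theorem sum_eq_zero_of_swp [DecidableEq (Fin n ≃ α)] [Fintype (Fin n ≃ α)] (l : ℕ) (h1 : 1 ≤ l)
    (h2 : l < n) (f : (Fin n ≃ α) → ℚ) (hf : ∀ w, f (swp w l h1 h2) = - f w) :
    ∑ w, f w = 0 := by
  apply Finset.sum_involution (fun w _ => swp w l h1 h2)
  · intro w _
    rw [hf]; ring
  · intro w _ _
    exact swp_ne w l h1 h2
  · intro w _
    exact mem_univ _
  · intro w _
    exact swp_swp w l h1 h2

end Pool.Agent.E8helper55.RN
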