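import Pool.Agent.E8helper55.RN.Red

/-!
# Localization on orderings (helper file)

For a function `t : α → ℚ` the functions `locX t S` on the set of all orderings satisfy the
relations of the deformed Chow ring; the functional `Phi` (sum of `f w` over the products of the
differences) kills everything of degree at most `n - 2`.
-/

namespace Pool.Agent.E8helper55.RN

open Finset

set_option linter.unusedSectionVars false

variable {α : Type} [Fintype α] [DecidableEq α] {n : ℕ}

/-- value of `t` at position `m` -/
def tau (t : α → ℚ) (w : Fin n ≃ α) (m : ℕ) : ℚ := if h : m < n then t (w ⟨m, h⟩) else 0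

/-- difference of the values at positions `s - 1` and `s` -/
def del (t : α → ℚ) (w : Fin n ≃ α) (s : ℕ) : ℚ := tau t w (s - 1) - tau t w s

/-- the localized variable -/
def locX (t : α → ℚ) (S : Finset α) (w : Fin n ≃ α) : ℚ :=
  if S = pref w S.card then del t w S.card else 0

theorem del_ne_zero {t : α → ℚ} (ht : Function.Injective t) (w : Fin n ≃ α) {s : ℕ}
    (h1 : 1 ≤ s) (h2 : s < n) : del t w s ≠ 0 := by
  unfold del tau
  rw [dif_pos (by omega : s - 1 < n), dif_pos h2]
  intro h
  have h3 := w.injective (ht (sub_eq_zero.1 h))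
  rw [Fin.mk.injEq] at h3
  omega

theorem del_swp_self (t : α → ℚ) (w : Fin n ≃ α) (l : ℕ) (h1 : 1 ≤ l) (h2 : l < n) :
    del t (swp w l h1 h2) l = - del t w l := by
  unfold del tau
  rw [dif_pos (by omega : l - 1 < n), dif_pos h2, dif_pos (by omega : l - 1 < n), dif_pos h2]
  rw [swp_apply_left, swp_apply_right]
  ring

theorem del_swp_of_far (t : α → ℚ) (w : Fin n ≃ α) (l : ℕ) (h1 : 1 ≤ l) (h2 : l < n) {s : ℕ}
    (h0 : 1 ≤ s) (h3 : s + 2 ≤ l ∨ l + 2 ≤ s) : del t (swp w l h1 h2) s = del t w s := by
  unfold del tau
  by_cases hs : s < n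
  · rw [dif_pos (by omega : s - 1 < n), dif_pos hs, dif_pos (by omega : s - 1 < n), dif_pos hs]
    rw [swp_apply_of_ne w l h1 h2 (by omega) (by omega) (by omega),
      swp_apply_of_ne w l h1 h2 (by omega) (by omega) (by omega)]
  · by_cases hs' : s - 1 < n
    · rw [dif_pos hs', dif_neg hs, dif_pos hs', dif_neg hs]
      rw [swp_apply_of_ne w l h1 h2 (by omega) (by omega) (by omega)]
    · rw [dif_neg hs', dif_neg hs, dif_neg hs', dif_neg hs]

theorem sum_locX (hcard : Fintype.card α = n) (t : α → ℚ) (w : Fin n ≃ α) (P : Finset α → Prop)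
    [DecidablePred P] :
    ∑ S ∈ univ.filter P, locX t S w
      = ∑ m ∈ (range (n + 1)).filter (fun m => P (pref w m)), del t w m := by
  have hcle : ∀ T : Finset α, T.card ≤ n := fun T => by
    rw [← hcard]; exact Finset.card_le_univ T
  unfold locX
  rw [← Finset.sum_filter, Finset.filter_filter]
  apply Finset.sum_nbij' (i := fun S => S.card) (j := fun m => pref w m)
  · intro S hS
    simp only [mem_filter, mem_univ, true_and, mem_range] at hS ⊢
    refine ⟨by have := hcle S; omega, ?_⟩
    rw [← hS.2]; exact hS.1
  · intro m hm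
    simp only [mem_filter, mem_univ, true_and, mem_range] at hm ⊢
    refine ⟨hm.2, ?_⟩
    rw [card_pref w (by omega)]
  · intro S hS
    simp only [mem_filter, mem_univ, true_and] at hS
    exact hS.2.symm
  · intro m hm
    simp only [mem_filter, mem_range] at hm
    exact card_pref w (by omega)
  · intro S hS
    rfl

theorem sum_del (t : α → ℚ) (w : Fin n ≃ α) (p : ℕ) (hp : p < n) :
    ∑ m ∈ (range (n + 1)).filter (fun m => p < m), del t w m = tau t w p := by
  have h1 : (range (n + 1)).filter (fun m => p < m) = Ico (p + 1) (n + 1) := by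
    ext m; simp only [mem_filter, mem_range, mem_Ico]; omega
  rw [h1, Finset.sum_Ico_eq_sum_range]
  have h2 : ∀ i, del t w (p + 1 + i) = (fun i => tau t w (p + i)) i
      - (fun i => tau t w (p + i)) (i + 1) := by
    intro i
    unfold del
    simp only
    congr 2 <;> omega
  rw [Finset.sum_congr rfl (fun i _ => h2 i), Finset.sum_range_sub']
  simp only [add_zero]
  have h3 : tau t w (p + (n + 1 - (p + 1))) = 0 := by
    unfold tau; rw [dif_neg (by omega)]
  rw [h3, sub_zero]

/-- the localization data -/
def locData (hcard : Fintype.card α = n) (t : α → ℚ) : Data ℚ ((Fin n ≃ α) → ℚ) α where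
  x := locX t
  t := t
  inc := by
    intro S T h1 h2
    funext w
    simp only [Pi.mul_apply, Pi.zero_apply, locX]
    by_cases hS : S = pref w S.card
    · by_cases hT : T = pref w T.card
      · exfalso
        rcases le_total S.card T.card with h | h
        · apply h1; rw [hS, hT]; exact pref_mono w h
        · apply h2; rw [hS, hT]; exact pref_mono w h
      · rw [if_neg hT, mul_zero]
    · rw [if_neg hS, zero_mul]
  lin := by
    intro e
    funext w
    rw [Finset.sum_apply, sum_locX hcard t w (fun S => e ∈ S)]
    simp only [mem_pref]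
    rw [sum_del t w _ (w.symm e).2]
    unfold tau
    rw [dif_pos (w.symm e).2]
    simp

/-- the product of all differences -/
def den (t : α → ℚ) (w : Fin n ≃ α) : ℚ := ∏ s ∈ Icc 1 (n - 1), del t w s

/-- the localization functional -/
noncomputable def Phi (t : α → ℚ) : ((Fin n ≃ α) → ℚ) →ₗ[ℚ] ℚ where
  toFun f := ∑ w, f w / den t w
  map_add' f g := by
    rw [← Finset.sum_add_distrib]
    exact Finset.sum_congr rfl fun w _ => by rw [Pi.add_apply, add_div]
  map_smul' c f := by
    rw [RingHom.id_apply, smul_eq_mul, Finset.mul_sum]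
    exact Finset.sum_congr rfl fun w _ => by rw [Pi.smul_apply, smul_eq_mul, mul_div_assoc]

theorem Phi_apply (t : α → ℚ) (f : (Fin n ≃ α) → ℚ) : Phi t f = ∑ w, f w / den t w := rfl

theorem card_injOn {C : Finset (Finset α)} (hC : IsCh C) : Set.InjOn Finset.card (C : Set (Finset α)) := by
  intro S hS T hT h
  rcases hC.2 S hS T hT with h1 | h1
  · exact Finset.eq_of_subset_of_card_le h1 h.ge
  · exact (Finset.eq_of_subset_of_card_le h1 h.le).symm

theorem sizes_subset (hcard : Fintype.card α = n) {C : Finset (Finset α)} (hC : IsCh C) :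
    C.image Finset.card ⊆ Icc 1 (n - 1) := by
  intro s hs
  rw [mem_image] at hs
  obtain ⟨S, hS, rfl⟩ := hs
  have h1 := Finset.card_pos.2 (hC.1 S hS).1
  have h2 : S.card < n := by
    rw [← hcard]
    exact (Finset.card_lt_iff_ne_univ S).2 (hC.1 S hS).2
  rw [mem_Icc]; omega

theorem exists_missing (hcard : Fintype.card α = n) {C : Finset (Finset α)} (hC : IsCh C)
    (h : C.card + 2 ≤ n) : ∃ l, 1 ≤ l ∧ l < n ∧ ∀ S ∈ C, S.card ≠ l := by
  have h1 : (C.image Finset.card).card < (Icc 1 (n - 1)).card := by
    rw [Finset.card_image_of_injOn (card_injOn hC), Nat.card_Icc]; omega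
  obtain ⟨l, hl, hl2⟩ := Finset.exists_mem_notMem_of_card_lt_card h1
  rw [mem_Icc] at hl
  refine ⟨l, hl.1, by omega, fun S hS h => hl2 ?_⟩
  rw [mem_image]; exact ⟨S, hS, h⟩

theorem mon_locData (hcard : Fintype.card α = n) (t : α → ℚ) {C : Finset (Finset α)} (hC : IsCh C)
    (w : Fin n ≃ α) : (locData hcard t).mon C w
      = if (∀ S ∈ C, S = pref w S.card) then ∏ s ∈ C.image Finset.card, del t w s else 0 := by
  have h1 : (locData hcard t).mon C w = ∏ S ∈ C, (if S = pref w S.card then del t w S.card else 0) := by
    unfold Data.mon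
    rw [Finset.prod_apply]
    rfl
  rw [h1, Finset.prod_ite_zero, Finset.prod_image (fun a ha b hb h => card_injOn hC ha hb h)]
  by_cases h : ∀ S ∈ C, S = pref w S.card
  · rw [if_pos h, if_pos h]
  · rw [if_neg h, if_neg h]

theorem Phi_mon (hcard : Fintype.card α = n) {t : α → ℚ} (ht : Function.Injective t) (k : ℕ) :
    ∀ C : Finset (Finset α), IsCh C → C.card + 2 + k = n → Phi t ((locData hcard t).mon C) = 0 := by
  induction k with
  | zero =>
    intro C hC hk
    obtain ⟨l, h1, h2, h3⟩ := exists_missing hcard hC (by omega)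
    rw [Phi_apply]
    classical
    apply sum_eq_zero_of_swp l h1 h2
    have himg : Icc 1 (n - 1) = insert l (C.image Finset.card) := by
      symm
      apply Finset.eq_of_subset_of_card_le
      · intro s hs
        rcases Finset.mem_insert.1 hs with h | h
        · rw [h, mem_Icc]; omega
        · exact sizes_subset hcard hC h
      · rw [Finset.card_insert_of_notMem, Finset.card_image_of_injOn (card_injOn hC), Nat.card_Icc]
        · omega
        · rw [mem_image]; rintro ⟨S, hS, h⟩; exact h3 S hS h
    have hl : l ∉ C.image Finset.card := by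
      rw [mem_image]; rintro ⟨S, hS, h⟩; exact h3 S hS h
    have hval : ∀ w : Fin n ≃ α, (locData hcard t).mon C w / den t w
        = if (∀ S ∈ C, S = pref w S.card) then 1 / del t w l else 0 := by
      intro w
      rw [mon_locData hcard t hC w]
      split_ifs with h
      · unfold den
        rw [himg, Finset.prod_insert hl]
        have h5 : ∏ s ∈ C.image Finset.card, del t w s ≠ 0 := by
          rw [Finset.prod_ne_zero_iff]
          intro s hs
          have := sizes_subset hcard hC hs
          rw [mem_Icc] at this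
          exact del_ne_zero ht w this.1 (by omega)
        have h6 := del_ne_zero ht w h1 h2
        field_simp
      · rw [zero_div]
    intro w
    rw [hval, hval]
    have hiff : (∀ S ∈ C, S = pref (swp w l h1 h2) S.card) ↔ (∀ S ∈ C, S = pref w S.card) := by
      constructor
      · intro h S hS
        have := h S hS
        rwa [pref_swp w l h1 h2 (h3 S hS)] at this
      · intro h S hS
        rw [pref_swp w l h1 h2 (h3 S hS)]
        exact h S hS
    rw [del_swp_self]
    by_cases h : ∀ S ∈ C, S = pref w S.card
    · rw [if_pos h, if_pos (hiff.2 h)]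
      rw [div_neg]
    · rw [if_neg h, if_neg (fun h' => h (hiff.1 h')), neg_zero]
  | succ k ih =>
    intro C hC hk
    obtain ⟨l, h1, h2, h3⟩ := exists_missing hcard hC (by omega)
    obtain ⟨w, hw⟩ := exists_order hcard C hC.2
    set i : α := w ⟨l - 1, by omega⟩ with hi
    set j : α := w ⟨l, h2⟩ with hj
    have hij : ∀ S ∈ C, (i ∈ S ↔ j ∈ S) := by
      intro S hS
      rw [hw S hS, hi, hj, apply_mem_pref, apply_mem_pref]
      have := h3 S hS
      omega
    have hne : t i - t j ≠ 0 := by
      intro h
      have h4 := w.injective (ht (sub_eq_zero.1 h))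
      rw [Fin.mk.injEq] at h4
      omega
    have hzero : ∀ T : Finset α, T.Nonempty → T ≠ univ → T ∉ C →
        Phi t ((locData hcard t).x T * (locData hcard t).mon C) = 0 := by
      intro T hT hTu hTC
      have h4 := (locData hcard t).insert_mem hC hT hTu hTC
      refine Submodule.span_induction (p := fun z _ => Phi t z = 0) ?_ ?_ ?_ ?_ h4
      · rintro z ⟨C', hC', h5, h6⟩
        rw [h6]
        exact ih C' hC' (by omega)
      · exact map_zero _
      · intro a b _ _ ha hb; rw [map_add, ha, hb, add_zero]
      · intro c a _ ha; rw [map_smul, ha, smul_zero]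
    have hd := (locData hcard t).diff i j
    have hd2 : (algebraMap ℚ ((Fin n ≃ α) → ℚ) ((locData hcard t).t i)
        - algebraMap ℚ ((Fin n ≃ α) → ℚ) ((locData hcard t).t j)) * (locData hcard t).mon C
        = ∑ T ∈ univ.filter (fun T : Finset α => i ∈ T ∧ j ∉ T),
            (locData hcard t).x T * (locData hcard t).mon C
          - ∑ T ∈ univ.filter (fun T : Finset α => j ∈ T ∧ i ∉ T),
            (locData hcard t).x T * (locData hcard t).mon C := by
      rw [← hd, sub_mul, Finset.sum_mul, Finset.sum_mul]
    have hd3 := congrArg (Phi t) hd2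
    rw [map_sub, map_sum, map_sum] at hd3
    rw [Finset.sum_eq_zero, Finset.sum_eq_zero] at hd3
    · have hd4 : (algebraMap ℚ ((Fin n ≃ α) → ℚ) ((locData hcard t).t i)
        - algebraMap ℚ ((Fin n ≃ α) → ℚ) ((locData hcard t).t j)) * (locData hcard t).mon C
        = (t i - t j) • (locData hcard t).mon C := by
        rw [← map_sub, ← Algebra.smul_def]; rfl
      rw [hd4, map_smul, sub_zero, smul_eq_mul] at hd3
      rcases mul_eq_zero.1 hd3 with h | h
      · exact absurd h hne
      · exact h
    · intro T hT
      rw [Finset.mem_filter] at hT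
      apply hzero T ⟨j, hT.2.1⟩
      · intro h; rw [h] at hT; exact hT.2.2 (Finset.mem_univ _)
      · intro hTC; exact hT.2.2 ((hij T hTC).2 hT.2.1)
    · intro T hT
      rw [Finset.mem_filter] at hT
      apply hzero T ⟨i, hT.2.1⟩
      · intro h; rw [h] at hT; exact hT.2.2 (Finset.mem_univ _)
      · intro hTC; exact hT.2.2 ((hij T hTC).1 hT.2.1)

theorem Phi_N' (hcard : Fintype.card α = n) {t : α → ℚ} (ht : Function.Injective t) {m : ℕ}
    (hm : m + 2 ≤ n) {z : (Fin n ≃ α) → ℚ} (hz : z ∈ (locData hcard t).N' m) : Phi t z = 0 := by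
  refine Submodule.span_induction (p := fun z _ => Phi t z = 0) ?_ ?_ ?_ ?_ hz
  · rintro z ⟨C, hC, h5, h6⟩
    rw [h6]
    exact Phi_mon hcard ht (n - 2 - C.card) C hC (by omega)
  · exact map_zero _
  · intro a b _ _ ha hb; rw [map_add, ha, hb, add_zero]
  · intro c a _ ha; rw [map_smul, ha, smul_zero]

end Pool.Agent.E8helper55.RN
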