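import Pool.Agent.E8helper55.RN.Defs
import Pool.Agent.E8helper55.RN.Loc

/-!
# The degree functional on the Chow ring (helper file)
-/

namespace Pool.Agent.E8helper55.RN

open Finset MvPolynomial

set_option linter.unusedSectionVars false

variable {α : Type} [Fintype α] [DecidableEq α] {n : ℕ}

/-- evaluation with a bookkeeping variable for the degree -/
noncomputable def evP (n : ℕ) (t : α → ℚ) :
    MvPolynomial (Idx α) ℤ →ₐ[ℤ] Polynomial ((Fin n ≃ α) → ℚ) :=
  aeval (fun S : Idx α => Polynomial.C (locX t S.1) * Polynomial.X)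

theorem evP_X (t : α → ℚ) (S : Idx α) :
    evP n t (X S) = Polynomial.C (locX t S.1) * Polynomial.X := by
  rw [evP, aeval_X]

theorem evP_coeff_mem (hcard : Fintype.card α = n) (t : α → ℚ) (q : MvPolynomial (Idx α) ℤ) :
    ∀ d, (evP n t q).coeff d ∈ (locData hcard t).N' d := by
  induction q using MvPolynomial.induction_on with
  | C a =>
    intro d
    have h1 : evP n t (C a) = Polynomial.C (algebraMap ℤ ((Fin n ≃ α) → ℚ) a) := by
      rw [evP, MvPolynomial.algHom_C]; rfl
    rw [h1, Polynomial.coeff_C]
    split_ifs with h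
    · rw [h]
      have h2 : algebraMap ℤ ((Fin n ≃ α) → ℚ) a = (a : ℚ) • (1 : (Fin n ≃ α) → ℚ) := by
        funext w
        simp
      rw [h2]
      exact Submodule.smul_mem _ _ ((locData hcard t).N_le_N' (le_refl 0)
        (locData hcard t).one_mem_N)
    · exact Submodule.zero_mem _
  | add p q hp hq =>
    intro d
    rw [map_add, Polynomial.coeff_add]
    exact Submodule.add_mem _ (hp d) (hq d)
  | mul_X p S hp =>
    intro d
    rw [map_mul, evP_X, ← mul_assoc]
    cases d with
    | zero => rw [Polynomial.mul_coeff_zero, Polynomial.coeff_X_zero, mul_zero]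
              exact Submodule.zero_mem _
    | succ d =>
      rw [Polynomial.coeff_mul_X, Polynomial.coeff_mul_C, mul_comm]
      exact (locData hcard t).mul_mem_N' hcard (hp d) S.2

/-- the degree functional on polynomials -/
noncomputable def Psi (n : ℕ) (t : α → ℚ) : MvPolynomial (Idx α) ℤ →ₗ[ℤ] ℚ where
  toFun q := Phi t ((evP n t q).coeff (n - 1))
  map_add' p q := by rw [map_add, Polynomial.coeff_add, map_add]
  map_smul' c q := by
    rw [RingHom.id_apply, map_smul, Polynomial.coeff_smul]
    have h2 : (c • (evP n t q).coeff (n - 1)) = (c : ℚ) • (evP n t q).coeff (n - 1) := by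
      funext w; simp
    rw [h2, map_smul]
    simp

theorem Psi_apply (t : α → ℚ) (q : MvPolynomial (Idx α) ℤ) :
    Psi n t q = Phi t ((evP n t q).coeff (n - 1)) := rfl

theorem Psi_ideal (hcard : Fintype.card α = n) (hn : 2 ≤ n) {t : α → ℚ}
    (ht : Function.Injective t) {p : MvPolynomial (Idx α) ℤ} (hp : p ∈ chowIdeal α) :
    ∀ q, Psi n t (q * p) = 0 := by
  unfold chowIdeal at hp
  induction hp using Submodule.span_induction with
  | mem p hp =>
    intro q
    rcases hp with ⟨S, T, h1, h2, rfl⟩ | ⟨e, rfl⟩
    · rw [Psi_apply, map_mul, map_mul, evP_X, evP_X]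
      have h3 : locX (n := n) t S.1 * locX t T.1 = 0 := (locData hcard t).inc S.1 T.1 h1 h2
      have h4 : Polynomial.C (locX (n := n) t S.1) * Polynomial.X
          * (Polynomial.C (locX t T.1) * Polynomial.X) = 0 := by
        have : Polynomial.C (locX (n := n) t S.1) * Polynomial.X
          * (Polynomial.C (locX t T.1) * Polynomial.X)
          = Polynomial.C (locX (n := n) t S.1 * locX t T.1) * Polynomial.X * Polynomial.X := by
          rw [Polynomial.C_mul]; ring
        rw [this, h3, Polynomial.C_0]; ring
      rw [h4, mul_zero, Polynomial.coeff_zero, map_zero]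
    · rw [Psi_apply, map_mul]
      have h3 : evP n t (∑ S ∈ univ.filter (fun S : Idx α => e ∈ S.1), X S)
          = Polynomial.C (algebraMap ℚ ((Fin n ≃ α) → ℚ) (t e)) * Polynomial.X := by
        rw [map_sum]
        simp only [evP_X]
        rw [← Finset.sum_mul, ← map_sum]
        congr 2
        have h5 : ∑ S ∈ univ.filter (fun S : Finset α => e ∈ S), locX (n := n) t S
            = algebraMap ℚ ((Fin n ≃ α) → ℚ) (t e) := (locData hcard t).lin e
        rw [← h5]
        have h6 : univ.filter (fun S : Finset α => e ∈ S)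
            = (univ.filter (fun S : Idx α => e ∈ S.1)).map (Function.Embedding.subtype _) := by
          ext S
          simp only [mem_filter, mem_univ, true_and, mem_map, Function.Embedding.subtype_apply]
          constructor
          · intro h; exact ⟨⟨S, ⟨e, h⟩⟩, h, rfl⟩
          · rintro ⟨S', h, rfl⟩; exact h
        rw [h6, Finset.sum_map]
        rfl
      rw [h3]
      obtain ⟨m, rfl⟩ : ∃ m, n = m + 2 := ⟨n - 2, by omega⟩
      rw [show m + 2 - 1 = m + 1 by omega, ← mul_assoc, Polynomial.coeff_mul_X,
        Polynomial.coeff_mul_C]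
      have h4 := evP_coeff_mem hcard t q m
      have h5 : (evP (m + 2) t q).coeff m * algebraMap ℚ ((Fin (m + 2) ≃ α) → ℚ) (t e)
          = (t e) • (evP (m + 2) t q).coeff m := by
        rw [Algebra.smul_def, mul_comm]
      rw [h5, map_smul, Phi_N' hcard ht (le_refl _) h4, smul_zero]
  | zero => intro q; rw [mul_zero, map_zero]
  | add a b _ _ ha hb => intro q; rw [mul_add, map_add, ha q, hb q, add_zero]
  | smul c a _ ha => intro q; rw [smul_eq_mul, ← mul_assoc]; exact ha _

/-- value on a product of `n - 1` linear forms -/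
theorem Psi_prod (t : α → ℚ) {ι : Type} (R : Finset ι) (F : ι → Finset (Idx α))
    (hR : R.card = n - 1) :
    Psi n t (∏ r ∈ R, ∑ S ∈ F r, X S)
      = Phi (n := n) t (∏ r ∈ R, ∑ S ∈ F r, locX (n := n) t S.1) := by
  rw [Psi_apply]
  congr 1
  have h1 : evP n t (∏ r ∈ R, ∑ S ∈ F r, X S)
      = Polynomial.C (∏ r ∈ R, ∑ S ∈ F r, locX (n := n) t S.1) * Polynomial.X ^ (n - 1) := by
    rw [map_prod, ← hR, ← Finset.prod_const, map_prod, ← Finset.prod_mul_distrib]
    apply Finset.prod_congr rfl
    intro r _
    rw [map_sum]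
    simp only [evP_X]
    rw [← Finset.sum_mul, ← map_sum]
  rw [h1, Polynomial.coeff_C_mul_X_pow, if_pos rfl]

/-- the polynomial `∑ X S` over `S` with `r S = a`, `|S| = s` -/
noncomputable def Yset (r : Finset α → ℕ) (a s : ℕ) : Finset (Idx α) :=
  univ.filter (fun S : Idx α => r S.1 = a ∧ S.1.card = s)

theorem sum_Yset_loc (hcard : Fintype.card α = n) (t : α → ℚ) (r : Finset α → ℕ) (a s : ℕ)
    (h1 : 1 ≤ s) (h2 : s ≤ n) (w : Fin n ≃ α) :
    (∑ S ∈ Yset r a s, locX t S.1) w = if r (pref w s) = a then del t w s else 0 := by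
  rw [Finset.sum_apply]
  have h6 : univ.filter (fun S : Finset α => S.Nonempty ∧ r S = a ∧ S.card = s)
      = (Yset r a s).map (Function.Embedding.subtype _) := by
    ext S
    simp only [Yset, mem_filter, mem_univ, true_and, mem_map, Function.Embedding.subtype_apply]
    constructor
    · intro h; exact ⟨⟨S, h.1⟩, h.2, rfl⟩
    · rintro ⟨S', h, rfl⟩; exact ⟨S'.2, h⟩
  have h7 : ∑ S ∈ Yset r a s, locX t S.1 w
      = ∑ S ∈ univ.filter (fun S : Finset α => S.Nonempty ∧ r S = a ∧ S.card = s),
        locX t S w := by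
    rw [h6, Finset.sum_map]; rfl
  rw [h7, sum_locX hcard t w]
  split_ifs with h
  · have h8 : (range (n + 1)).filter (fun m => (pref w m).Nonempty ∧ r (pref w m) = a ∧
        (pref w m).card = s) = {s} := by
      ext m
      simp only [mem_filter, mem_range, mem_singleton]
      constructor
      · rintro ⟨h3, _, _, h4⟩
        rwa [card_pref w (by omega)] at h4
      · rintro rfl
        refine ⟨by omega, ?_, h, card_pref w h2⟩
        rw [← Finset.card_pos, card_pref w h2]; omega
    rw [h8, Finset.sum_singleton]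
  · have h8 : (range (n + 1)).filter (fun m => (pref w m).Nonempty ∧ r (pref w m) = a ∧
        (pref w m).card = s) = ∅ := by
      ext m
      simp only [mem_filter, mem_range, Finset.notMem_empty, iff_false]
      rintro ⟨h3, _, h5, h4⟩
      rw [card_pref w (by omega)] at h4
      rw [h4] at h5
      exact h h5
    rw [h8, Finset.sum_empty]

end Pool.Agent.E8helper55.RN
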