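import Pool.Agent.E8helper55.RN.Act

/-!
# The direct sum of `k` copies of `U_{1,2}` (helper file)
-/

namespace Pool.Agent.E8helper55.RN

open Finset MvPolynomial

/-- The direct sum of `k` copies of the uniform matroid `U_{1,2}`, on the ground set
`Fin (k * 2)`: the element `i` lies in the block `i / 2`, and a set is independent if and only if
it contains at most one element of every block. -/
def pairs (k : ℕ) : Matroid (Fin (k * 2)) :=
  (Matroid.freeOn (Set.univ : Set (Fin k))).comap (fun i : Fin (k * 2) => i.divNat)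

theorem pairs_indep (k : ℕ) (I : Set (Fin (k * 2))) :
    (pairs k).Indep I ↔ Set.InjOn (fun i : Fin (k * 2) => i.divNat) I := by
  unfold pairs
  rw [Matroid.comap_indep_iff, Matroid.freeOn_indep_iff]
  simp

theorem pairs_E (k : ℕ) : (pairs k).E = Set.univ := by
  unfold pairs
  rw [Matroid.comap_ground_eq]
  simp

/-- positions in blocks -/
def blk (k : ℕ) : Fin (k * 2) ≃ Fin k × Bool :=
  finProdFinEquiv.symm.trans (Equiv.prodCongr (Equiv.refl _) finTwoEquiv)

theorem pairs_eRk (k : ℕ) (S : Finset (Fin (k * 2))) :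
    (pairs k).eRk (S : Set (Fin (k * 2))) = (rk (blk k) S : ℕ∞) := by
  have h0 : ((rk (blk k) S : ℕ) : ℕ∞)
      = ((fun i : Fin (k * 2) => i.divNat) '' (S : Set (Fin (k * 2)))).encard := by
    unfold rk
    rw [← Set.encard_coe_eq_coe_finsetCard, Finset.coe_image]
    rfl
  apply le_antisymm
  · rw [Matroid.eRk_le_iff]
    intro I hI hInd
    rw [pairs_indep] at hInd
    rw [h0, ← hInd.encard_image]
    exact Set.encard_le_encard (Set.image_mono hI)
  · obtain ⟨I, hI, hb⟩ := Set.exists_subset_bijOn (S : Set (Fin (k * 2)))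
      (fun i : Fin (k * 2) => i.divNat)
    rw [h0, ← hb.image_eq, hb.injOn.encard_image]
    exact Matroid.Indep.encard_le_eRk_of_subset ((pairs_indep k I).2 hb.injOn) hI

theorem main (C : ℕ) : ∃ k₀ : ℕ, ∀ k ≥ k₀,
    C * hilbert (pairs k) (k * 2 - 2) ^ 2
      < hilbert (pairs k) (k * 2 - 3) * hilbert (pairs k) (k * 2 - 1) := by
  refine ⟨8 * (47775744 * C + 1), fun k hk => ?_⟩
  have hcard : Fintype.card (Fin (k * 2)) = k * 2 := Fintype.card_fin _
  obtain ⟨K, hK⟩ : ∃ K, K = k / 8 := ⟨_, rfl⟩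
  have hK1 : 47775744 * C + 1 ≤ K := by omega
  have hK2 : 8 * K ≤ k := by omega
  have hK3 : k + 1 ≤ 16 * K := by omega
  have h1 := hilbert_lower hcard (blk k) hK2 (pairs k) (pairs_eRk k)
  have h2 := hilbert_upper hcard (by omega) (blk k) (pairs k) (pairs_eRk k)
  have h3 := hilbert_top hcard (by omega) (pairs k) (rk (blk k)) (pairs_eRk k)
    (rk_le_card (blk k))
  have h4 : 27 * (k + 1) ^ 2 ≤ 6912 * K ^ 2 := by
    have : (k + 1) ^ 2 ≤ (16 * K) ^ 2 := Nat.pow_le_pow_left hK3 2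
    calc 27 * (k + 1) ^ 2 ≤ 27 * (16 * K) ^ 2 := Nat.mul_le_mul_left _ this
      _ = 6912 * K ^ 2 := by ring
  have h5 : hilbert (pairs k) (k * 2 - 2) ^ 2 ≤ 47775744 * K ^ 4 := by
    calc hilbert (pairs k) (k * 2 - 2) ^ 2 ≤ (6912 * K ^ 2) ^ 2 :=
          Nat.pow_le_pow_left (h2.trans h4) 2
      _ = 47775744 * K ^ 4 := by ring
  calc C * hilbert (pairs k) (k * 2 - 2) ^ 2 ≤ C * (47775744 * K ^ 4) := Nat.mul_le_mul_left _ h5
    _ = (47775744 * C) * K ^ 4 := by ring
    _ < K * K ^ 4 := by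
        apply Nat.mul_lt_mul_of_pos_right (by omega)
        apply Nat.pow_pos; omega
    _ = K ^ 5 * 1 := by ring
    _ ≤ hilbert (pairs k) (k * 2 - 3) * hilbert (pairs k) (k * 2 - 1) := Nat.mul_le_mul h1 h3

end Pool.Agent.E8helper55.RN
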