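import Pool.Agent.E8helper55.RN.Chow

/-!
# Products over flags (helper file)

`P S` is the product over a maximal flag below `S` (including `S`), `Q S` the product over a
maximal flag above `S` (including `S`, excluding the full set).
-/

namespace Pool.Agent.E8helper55.RN

open Finset MvPolynomial

set_option linter.unusedSectionVars false

variable {α : Type} [Fintype α] [DecidableEq α] {n : ℕ}

/-- the variable of `S`, with `1` for the empty and the full set -/
noncomputable def xh (S : Finset α) : ChowRing α := if S = univ then 1 else cx α S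

theorem xh_empty : xh (∅ : Finset α) = 1 := by
  unfold xh cx
  split_ifs with h h2
  · rfl
  · exact absurd h2 Finset.not_nonempty_empty
  · rfl

theorem xh_univ : xh (univ : Finset α) = 1 := by
  unfold xh; rw [if_pos rfl]

theorem xh_inc {S T : Finset α} (h1 : ¬ S ⊆ T) (h2 : ¬ T ⊆ S) : xh S * cx α T = 0 := by
  have hS : S ≠ univ := by rintro rfl; exact h2 (Finset.subset_univ _)
  unfold xh
  rw [if_neg hS]
  exact cx_inc S T h1 h2

theorem K1 (R : Finset α) {a b : α} (ha : a ∉ R) (hab : a ≠ b) :
    ∑ T ∈ univ.filter (fun T : Finset α => a ∈ T ∧ b ∉ T),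
      xh R * xh (insert a (insert b R)) * cx α T
      = xh R * xh (insert a (insert b R)) * cx α (insert a R) ∨ b ∈ R := by
  by_cases hb : b ∈ R
  · right; exact hb
  left
  apply Finset.sum_eq_single (insert a R)
  · intro T hT hne
    rw [Finset.mem_filter] at hT
    by_cases h1 : R ⊆ T
    · by_cases h2 : T ⊆ insert a (insert b R)
      · exfalso
        apply hne
        apply Finset.Subset.antisymm
        · intro c hc
          have h3 := h2 hc
          rw [Finset.mem_insert, Finset.mem_insert] at h3
          rcases h3 with h3 | h3 | h3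
          · rw [h3]; exact Finset.mem_insert_self _ _
          · exfalso; rw [h3] at hc; exact hT.2.2 hc
          · exact Finset.mem_insert_of_mem h3
        · intro c hc
          rw [Finset.mem_insert] at hc
          rcases hc with hc | hc
          · rw [hc]; exact hT.2.1
          · exact h1 hc
      · have h3 : ¬ insert a (insert b R) ⊆ T := fun h => hT.2.2 (h (by simp))
        rw [mul_assoc, xh_inc h3 h2, mul_zero]
    · have h3 : ¬ T ⊆ R := fun h => ha (h hT.2.1)
      rw [mul_comm (xh R), mul_assoc, xh_inc h1 h3, mul_zero]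
  · intro h
    exfalso
    apply h
    rw [Finset.mem_filter]
    refine ⟨Finset.mem_univ _, Finset.mem_insert_self _ _, ?_⟩
    rw [Finset.mem_insert]
    rintro (h | h)
    · exact hab h.symm
    · exact hb h

theorem K2 (R : Finset α) {a b : α} (ha : a ∉ R) (hb : b ∉ R) (hab : a ≠ b) :
    xh R * xh (insert a (insert b R)) * xh (insert a R)
      = xh R * xh (insert a (insert b R)) * xh (insert b R) := by
  have h1 := (K1 R ha hab).resolve_right hb
  have h2 := (K1 R hb hab.symm).resolve_right ha
  rw [Finset.insert_comm b a R] at h2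
  have e1 : xh (insert a R) = cx α (insert a R) := by
    unfold xh
    rw [if_neg]
    intro h
    have : b ∈ insert a R := by rw [h]; exact Finset.mem_univ _
    rw [Finset.mem_insert] at this
    rcases this with h | h
    · exact hab h.symm
    · exact hb h
  have e2 : xh (insert b R) = cx α (insert b R) := by
    unfold xh
    rw [if_neg]
    intro h
    have : a ∈ insert b R := by rw [h]; exact Finset.mem_univ _
    rw [Finset.mem_insert] at this
    rcases this with h | h
    · exact hab h
    · exact ha h
  rw [e1, e2, ← h1, ← h2, ← Finset.mul_sum, ← Finset.mul_sum]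
  have h3 := (chowData α).diff a b
  have h4 : ∑ T ∈ univ.filter (fun T : Finset α => a ∈ T ∧ b ∉ T), cx α T
      = ∑ T ∈ univ.filter (fun T : Finset α => b ∈ T ∧ a ∉ T), cx α T := by
    have h5 : ∑ T ∈ univ.filter (fun T : Finset α => a ∈ T ∧ b ∉ T), cx α T
      - ∑ T ∈ univ.filter (fun T : Finset α => b ∈ T ∧ a ∉ T), cx α T
      = algebraMap ℤ (ChowRing α) 0 - algebraMap ℤ (ChowRing α) 0 := h3
    rw [sub_self] at h5
    exact sub_eq_zero.1 h5
  rw [h4]

/-- product over a flag below -/
noncomputable def P (S : Finset α) : ChowRing α :=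
  if h : S.Nonempty then xh S * P (S.erase h.choose) else 1
termination_by S.card
decreasing_by exact Finset.card_erase_lt_of_mem h.choose_spec

theorem P_empty : P (∅ : Finset α) = 1 := by
  rw [P, dif_neg Finset.not_nonempty_empty]

theorem P_dvd (S : Finset α) : ∃ c, P S = xh S * c := by
  rw [P]
  split_ifs with h
  · exact ⟨_, rfl⟩
  · rw [Finset.not_nonempty_iff_eq_empty] at h
    refine ⟨1, ?_⟩
    rw [h, xh_empty, mul_one]

theorem P_erase (m : ℕ) : ∀ S : Finset α, S.card = m → ∀ a ∈ S, P S = xh S * P (S.erase a) := by
  induction m using Nat.strong_induction_on with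
  | _ m ih =>
    intro S hS a ha
    have hne : S.Nonempty := ⟨a, ha⟩
    have h1 : P S = xh S * P (S.erase hne.choose) := by
      rw [P, dif_pos hne]
    set b := hne.choose with hb
    have hbS : b ∈ S := hne.choose_spec
    rw [h1]
    by_cases hab : a = b
    · rw [hab]
    have h2 := ih (S.erase b).card (by rw [← hS]; exact Finset.card_erase_lt_of_mem hbS)
      (S.erase b) rfl a (by rw [Finset.mem_erase]; exact ⟨hab, ha⟩)
    have h3 := ih (S.erase a).card (by rw [← hS]; exact Finset.card_erase_lt_of_mem ha)
      (S.erase a) rfl b (by rw [Finset.mem_erase]; exact ⟨fun h => hab h.symm, hbS⟩)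
    rw [h2, h3, Finset.erase_right_comm]
    set R := (S.erase a).erase b with hR
    obtain ⟨c, hc⟩ := P_dvd R
    have haR : a ∉ R := by simp [hR]
    have hbR : b ∉ R := by simp [hR]
    have e1 : S = insert a (insert b R) := by
      rw [hR, Finset.insert_erase, Finset.insert_erase ha]
      rw [Finset.mem_erase]; exact ⟨fun h => hab h.symm, hbS⟩
    have e2 : S.erase b = insert a R := by
      rw [hR, Finset.erase_right_comm, Finset.insert_erase]
      rw [Finset.mem_erase]; exact ⟨hab, ha⟩
    have e3 : S.erase a = insert b R := by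
      rw [hR, Finset.insert_erase]
      rw [Finset.mem_erase]; exact ⟨fun h => hab h.symm, hbS⟩
    have h4 := K2 R haR hbR hab
    rw [e2, e3, hc]
    rw [← e1] at h4
    linear_combination c * h4

theorem P_erase' {S : Finset α} {a : α} (ha : a ∈ S) : P S = xh S * P (S.erase a) :=
  P_erase S.card S rfl a ha

/-- product over a flag above -/
noncomputable def Q (S : Finset α) : ChowRing α :=
  if h : (Sᶜ).Nonempty then xh S * Q (insert h.choose S) else 1
termination_by (Sᶜ).card
decreasing_by
  have h1 := h.choose_spec
  rw [Finset.compl_insert]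
  exact Finset.card_erase_lt_of_mem h1

theorem Q_univ : Q (univ : Finset α) = 1 := by
  rw [Q, dif_neg]
  rw [Finset.compl_univ]; exact Finset.not_nonempty_empty

theorem Q_dvd (S : Finset α) : ∃ c, Q S = xh S * c := by
  rw [Q]
  split_ifs with h
  · exact ⟨_, rfl⟩
  · rw [Finset.not_nonempty_iff_eq_empty, Finset.compl_eq_empty_iff] at h
    refine ⟨1, ?_⟩
    rw [h, xh_univ, mul_one]

theorem Q_insert (m : ℕ) : ∀ S : Finset α, (Sᶜ).card = m → ∀ a, a ∉ S →
    Q S = xh S * Q (insert a S) := by
  induction m using Nat.strong_induction_on with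
  | _ m ih =>
    intro S hS a ha
    have haS : a ∈ Sᶜ := Finset.mem_compl.2 ha
    have hne : (Sᶜ).Nonempty := ⟨a, haS⟩
    have h1 : Q S = xh S * Q (insert hne.choose S) := by
      rw [Q, dif_pos hne]
    set b := hne.choose with hb
    have hbS' : b ∈ Sᶜ := hne.choose_spec
    have hbS : b ∉ S := Finset.mem_compl.1 hbS'
    rw [h1]
    by_cases hab : a = b
    · rw [hab]
    have h2 := ih ((insert b S)ᶜ).card (by
      rw [← hS, Finset.compl_insert]; exact Finset.card_erase_lt_of_mem hbS')
      (insert b S) rfl a (by rw [Finset.mem_insert, not_or]; exact ⟨hab, ha⟩)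
    have h3 := ih ((insert a S)ᶜ).card (by
      rw [← hS, Finset.compl_insert]; exact Finset.card_erase_lt_of_mem haS)
      (insert a S) rfl b (by rw [Finset.mem_insert, not_or]; exact ⟨fun h => hab h.symm, hbS⟩)
    rw [h2, h3, Finset.insert_comm b a S]
    obtain ⟨c, hc⟩ := Q_dvd (insert a (insert b S))
    have h4 := K2 S ha hbS hab
    rw [hc]
    linear_combination (-c) * h4

theorem Q_insert' {S : Finset α} {a : α} (ha : a ∉ S) : Q S = xh S * Q (insert a S) :=
  Q_insert (Sᶜ).card S rfl a ha

theorem pref_succ (w : Fin n ≃ α) {m : ℕ} (hm : m < n) :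
    pref w (m + 1) = insert (w ⟨m, hm⟩) (pref w m) := by
  ext a
  rw [Finset.mem_insert, mem_pref, mem_pref]
  constructor
  · intro h
    rcases Nat.lt_or_ge (w.symm a : ℕ) m with h1 | h1
    · right; exact h1
    · left
      have h2 : w.symm a = ⟨m, hm⟩ := by
        apply Fin.ext; simp only; omega
      rw [← h2, Equiv.apply_symm_apply]
  · rintro (h | h)
    · rw [h, Equiv.symm_apply_apply]; simp
    · omega

theorem prod_low (w : Fin n ≃ α) (m : ℕ) (hm : m ≤ n) :
    ∏ s ∈ Icc 1 m, xh (pref w s) = P (pref w m) := by
  induction m with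
  | zero => rw [pref_zero, P_empty]; simp
  | succ m ih =>
    have hI : Icc 1 (m + 1) = insert (m + 1) (Icc 1 m) := by
      ext s; simp only [mem_Icc, mem_insert]; omega
    rw [hI, Finset.prod_insert (by simp), ih (by omega)]
    have hmem : w ⟨m, by omega⟩ ∈ pref w (m + 1) := by rw [apply_mem_pref]; omega
    rw [P_erase' hmem]
    congr 2
    rw [pref_succ w (by omega), Finset.erase_insert]
    rw [apply_mem_pref]; omega

theorem prod_high (w : Fin n ≃ α) (j : ℕ) : ∀ m, m + j = n →
    ∏ s ∈ Ico m n, xh (pref w s) = Q (pref w m) := by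
  induction j with
  | zero =>
    intro m hm
    rw [pref_top w (by omega), Q_univ]
    have : Ico m n = ∅ := by rw [Finset.Ico_eq_empty_iff]; omega
    rw [this, Finset.prod_empty]
  | succ j ih =>
    intro m hm
    have h1 : Ico m n = insert m (Ico (m + 1) n) := by
      ext s; simp only [mem_insert, mem_Ico]; omega
    rw [h1, Finset.prod_insert (by simp), ih (m + 1) (by omega)]
    have hnm : w ⟨m, by omega⟩ ∉ pref w m := by rw [apply_mem_pref]; omega
    rw [Q_insert' hnm, ← pref_succ w (by omega)]

/-- chain monomials of degree `n - 2` -/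
theorem mon_eq (hcard : Fintype.card α = n) {C : Finset (Finset α)} (hC : IsCh C)
    (h : C.card + 2 = n) : ∃ A B : Finset α, A ⊆ B ∧ (B \ A).card = 2 ∧
      (chowData α).mon C = P A * Q B := by
  obtain ⟨l, h1, h2, h3⟩ := exists_missing hcard hC (by omega)
  obtain ⟨w, hw⟩ := exists_order hcard C hC.2
  refine ⟨pref w (l - 1), pref w (l + 1), pref_mono w (by omega), ?_, ?_⟩
  · rw [Finset.card_sdiff_of_subset (pref_mono w (by omega)), card_pref w (by omega),
      card_pref w (by omega)]
    omega
  · have himg : C.image Finset.card = (Icc 1 (n - 1)).erase l := by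
      apply Finset.eq_of_subset_of_card_le
      · intro s hs
        rw [Finset.mem_erase]
        refine ⟨?_, sizes_subset hcard hC hs⟩
        rw [mem_image] at hs
        obtain ⟨S, hS, rfl⟩ := hs
        exact h3 S hS
      · rw [Finset.card_erase_of_mem (by rw [mem_Icc]; omega), Nat.card_Icc,
          Finset.card_image_of_injOn (card_injOn hC)]
        omega
    have e1 : (chowData α).mon C = ∏ s ∈ (Icc 1 (n - 1)).erase l, xh (pref w s) := by
      rw [← himg, Finset.prod_image (fun a ha b hb h => card_injOn hC ha hb h)]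
      unfold Data.mon
      apply Finset.prod_congr rfl
      intro S hS
      rw [← hw S hS]
      unfold xh
      rw [if_neg (hC.1 S hS).2]
      rfl
    have e2 : (Icc 1 (n - 1)).erase l = Icc 1 (l - 1) ∪ Ico (l + 1) n := by
      ext s; simp only [mem_erase, mem_Icc, mem_union, mem_Ico]; omega
    have e3 : Disjoint (Icc 1 (l - 1)) (Ico (l + 1) n) := by
      rw [Finset.disjoint_left]; intro s; simp only [mem_Icc, mem_Ico]; omega
    rw [e1, e2, Finset.prod_union e3, prod_low w (l - 1) (by omega),
      prod_high w (n - (l + 1)) (l + 1) (by omega)]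

end Pool.Agent.E8helper55.RN
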