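import Pool.Agent.E8helper55.RN.Flags

/-!
# Reduction to squarefree monomials (helper file)

Elements `x S` of a commutative ring, indexed by subsets, with the relations of the Chow ring of
the permutohedral variety (possibly deformed by scalars `t e`).
-/

namespace Pool.Agent.E8helper55.RN

open Finset

set_option linter.unusedSectionVars false

variable {α : Type} [Fintype α] [DecidableEq α] {n : ℕ}

/-- a chain of nonempty proper subsets -/
def IsCh (C : Finset (Finset α)) : Prop :=
  (∀ S ∈ C, S.Nonempty ∧ S ≠ univ) ∧ ∀ S ∈ C, ∀ T ∈ C, S ⊆ T ∨ T ⊆ S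

/-- a family with the relations of the (deformed) Chow ring -/
structure Data (K B : Type) [CommRing K] [CommRing B] [Algebra K B] (α : Type) [Fintype α]
    [DecidableEq α] where
  x : Finset α → B
  t : α → K
  inc : ∀ S T : Finset α, ¬ S ⊆ T → ¬ T ⊆ S → x S * x T = 0
  lin : ∀ e : α, ∑ S ∈ univ.filter (fun S : Finset α => e ∈ S), x S = algebraMap K B (t e)

namespace Data

variable {K B : Type} [CommRing K] [CommRing B] [Algebra K B] (D : Data K B α)

/-- product over a chain -/
def mon (C : Finset (Finset α)) : B := ∏ S ∈ C, D.x S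

/-- span of the squarefree chain monomials of degree `m` -/
def N (m : ℕ) : Submodule K B :=
  Submodule.span K {z | ∃ C : Finset (Finset α), IsCh C ∧ C.card = m ∧ z = D.mon C}

/-- span of the squarefree chain monomials of degree at most `m` -/
def N' (m : ℕ) : Submodule K B :=
  Submodule.span K {z | ∃ C : Finset (Finset α), IsCh C ∧ C.card ≤ m ∧ z = D.mon C}

theorem diff (i j : α) :
    ∑ T ∈ univ.filter (fun T : Finset α => i ∈ T ∧ j ∉ T), D.x T
      - ∑ T ∈ univ.filter (fun T : Finset α => j ∈ T ∧ i ∉ T), D.x T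
      = algebraMap K B (D.t i) - algebraMap K B (D.t j) := by
  have h1 := D.lin i
  have h2 := D.lin j
  rw [← Finset.sum_filter_add_sum_filter_not _ (fun T => j ∈ T)] at h1
  rw [← Finset.sum_filter_add_sum_filter_not _ (fun T => i ∈ T)] at h2
  rw [Finset.filter_filter, Finset.filter_filter] at h1 h2
  have h3 : univ.filter (fun T : Finset α => j ∈ T ∧ i ∈ T)
      = univ.filter (fun T : Finset α => i ∈ T ∧ j ∈ T) := by
    ext T; simp [and_comm]
  rw [h3] at h2
  rw [← h1, ← h2]
  ring

theorem mul_eq_zero {C : Finset (Finset α)} {S T : Finset α} (hS : S ∈ C) (h1 : ¬ S ⊆ T)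
    (h2 : ¬ T ⊆ S) : D.x T * D.mon C = 0 := by
  rw [mon, ← Finset.mul_prod_erase C D.x hS, ← mul_assoc, D.inc T S h2 h1, zero_mul]

theorem insert_mem {C : Finset (Finset α)} (hC : IsCh C) {T : Finset α} (hT : T.Nonempty)
    (hTu : T ≠ univ) (hTC : T ∉ C) : D.x T * D.mon C ∈ D.N (C.card + 1) := by
  by_cases h : ∀ S ∈ C, S ⊆ T ∨ T ⊆ S
  · apply Submodule.subset_span
    refine ⟨insert T C, ⟨?_, ?_⟩, ?_, ?_⟩
    · intro S hS
      rcases Finset.mem_insert.1 hS with h1 | h1
      · rw [h1]; exact ⟨hT, hTu⟩
      · exact hC.1 S h1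
    · intro S hS S' hS'
      rcases Finset.mem_insert.1 hS with h1 | h1 <;> rcases Finset.mem_insert.1 hS' with h2 | h2
      · rw [h1, h2]; left; exact Finset.Subset.refl _
      · rw [h1]; exact (h S' h2).symm
      · rw [h2]; exact h S h1
      · exact hC.2 S h1 S' h2
    · exact Finset.card_insert_of_notMem hTC
    · rw [mon, mon, Finset.prod_insert hTC]
  · push Not at h
    obtain ⟨S, hS, h1, h2⟩ := h
    rw [D.mul_eq_zero hS h1 h2]
    exact Submodule.zero_mem _

theorem step (hcard : Fintype.card α = n) {C : Finset (Finset α)} (hC : IsCh C) {S : Finset α}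
    (hS : S.Nonempty) : ∃ c : K, ((∀ e, D.t e = 0) → c = 0) ∧
      D.x S * D.mon C - algebraMap K B c * D.mon C ∈ D.N (C.card + 1) := by
  obtain ⟨w, hw⟩ := exists_order hcard C hC.2
  have hn : 0 < n := by
    rw [← hcard]
    obtain ⟨a, _⟩ := hS
    exact Fintype.card_pos_iff.2 ⟨a⟩
  have hcle : ∀ T : Finset α, T.card ≤ n := fun T => by
    rw [← hcard]; exact Finset.card_le_univ T
  by_cases hSu : S = univ
  · -- the full set
    set i : α := w ⟨n - 1, by omega⟩ with hi
    have hnot : ∀ T ∈ C, i ∉ T := by
      intro T hT hiT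
      rw [hw T hT, hi, apply_mem_pref] at hiT
      have h2 : T.card = n := by have := hcle T; omega
      apply (hC.1 T hT).2
      rw [← Finset.card_eq_iff_eq_univ, h2, hcard]
    refine ⟨D.t i, fun h => h i, ?_⟩
    have h1 := D.lin i
    have hmem : (univ : Finset α) ∈ univ.filter (fun T : Finset α => i ∈ T) := by simp
    rw [← Finset.add_sum_erase _ _ hmem] at h1
    have h2 : D.x S * D.mon C - algebraMap K B (D.t i) * D.mon C
        = - ∑ T ∈ (univ.filter (fun T : Finset α => i ∈ T)).erase univ, D.x T * D.mon C := by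
      rw [← Finset.sum_mul, hSu, ← h1]; ring
    rw [h2]
    apply Submodule.neg_mem
    apply Submodule.sum_mem
    intro T hT
    rw [Finset.mem_erase, Finset.mem_filter] at hT
    apply D.insert_mem hC ⟨i, hT.2.2⟩ hT.1
    intro hTC
    exact hnot T hTC hT.2.2
  · by_cases hSC : S ∈ C
    · have hSw := hw S hSC
      have hpos : 0 < S.card := Finset.card_pos.2 hS
      have hlt : S.card < n := by
        rcases Nat.lt_or_ge S.card n with h | h
        · exact h
        · exfalso; apply hSu
          rw [← Finset.card_eq_iff_eq_univ, hcard]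
          exact le_antisymm (hcle S) h
      set i : α := w ⟨S.card - 1, by omega⟩ with hi
      set j : α := w ⟨S.card, hlt⟩ with hj
      have hiS : i ∈ S := by rw [hSw, hi, apply_mem_pref]; omega
      have hjS : j ∉ S := by rw [hSw, hj, apply_mem_pref]; omega
      refine ⟨D.t i - D.t j, fun h => by rw [h, h, sub_zero], ?_⟩
      have h1 := D.diff i j
      have h2 : ∑ T ∈ univ.filter (fun T : Finset α => j ∈ T ∧ i ∉ T), D.x T * D.mon C = 0 := by
        apply Finset.sum_eq_zero
        intro T hT
        rw [Finset.mem_filter] at hT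
        exact D.mul_eq_zero hSC (fun h => hT.2.2 (h hiS)) (fun h => hjS (h hT.2.1))
      have hmem : S ∈ univ.filter (fun T : Finset α => i ∈ T ∧ j ∉ T) := by simp [hiS, hjS]
      rw [← Finset.add_sum_erase _ _ hmem] at h1
      have h3 : D.x S * D.mon C - algebraMap K B (D.t i - D.t j) * D.mon C
          = - ∑ T ∈ (univ.filter (fun T : Finset α => i ∈ T ∧ j ∉ T)).erase S,
              D.x T * D.mon C := by
        rw [← Finset.sum_mul] at h2 ⊢
        rw [map_sub, ← h1]
        linear_combination h2
      rw [h3]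
      apply Submodule.neg_mem
      apply Submodule.sum_mem
      intro T hT
      rw [Finset.mem_erase, Finset.mem_filter] at hT
      apply D.insert_mem hC ⟨i, hT.2.2.1⟩
      · intro h; rw [h] at hT; exact hT.2.2.2 (Finset.mem_univ _)
      · intro hTC
        apply hT.1
        have hTw := hw T hTC
        have e1 := hT.2.2.1
        have e2 := hT.2.2.2
        rw [hTw, hi, apply_mem_pref] at e1
        rw [hTw, hj, apply_mem_pref] at e2
        rw [hTw, hSw]
        congr 1
        omega
    · refine ⟨0, fun _ => rfl, ?_⟩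
      rw [map_zero, zero_mul, sub_zero]
      exact D.insert_mem hC hS hSu hSC

theorem N_le_N' {m k : ℕ} (h : m ≤ k) : D.N m ≤ D.N' k := by
  apply Submodule.span_mono
  rintro z ⟨C, hC, h1, h2⟩
  exact ⟨C, hC, by omega, h2⟩

theorem N'_mono {m k : ℕ} (h : m ≤ k) : D.N' m ≤ D.N' k := by
  apply Submodule.span_mono
  rintro z ⟨C, hC, h1, h2⟩
  exact ⟨C, hC, by omega, h2⟩

theorem mul_mem_N (hcard : Fintype.card α = n) (ht : ∀ e, D.t e = 0) {m : ℕ} {z : B}
    (hz : z ∈ D.N m) {S : Finset α} (hS : S.Nonempty) : D.x S * z ∈ D.N (m + 1) := by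
  induction hz using Submodule.span_induction with
  | mem z hz =>
    obtain ⟨C, hC, h1, h2⟩ := hz
    obtain ⟨c, hc, h3⟩ := D.step hcard hC hS
    rw [hc ht, map_zero, zero_mul, sub_zero, h1] at h3
    rw [h2]; exact h3
  | zero => rw [mul_zero]; exact Submodule.zero_mem _
  | add a b _ _ ha hb => rw [mul_add]; exact Submodule.add_mem _ ha hb
  | smul c a _ ha => rw [mul_smul_comm]; exact Submodule.smul_mem _ _ ha

theorem mul_mem_N' (hcard : Fintype.card α = n) {m : ℕ} {z : B}
    (hz : z ∈ D.N' m) {S : Finset α} (hS : S.Nonempty) : D.x S * z ∈ D.N' (m + 1) := by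
  induction hz using Submodule.span_induction with
  | mem z hz =>
    obtain ⟨C, hC, h1, h2⟩ := hz
    obtain ⟨c, hc, h3⟩ := D.step hcard hC hS
    rw [h2]
    have h4 : D.x S * D.mon C = (D.x S * D.mon C - algebraMap K B c * D.mon C)
        + c • D.mon C := by rw [Algebra.smul_def]; ring
    rw [h4]
    apply Submodule.add_mem
    · exact D.N_le_N' (by omega) h3
    · apply Submodule.smul_mem
      exact Submodule.subset_span ⟨C, hC, by omega, rfl⟩
  | zero => rw [mul_zero]; exact Submodule.zero_mem _
  | add a b _ _ ha hb => rw [mul_add]; exact Submodule.add_mem _ ha hb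
  | smul c a _ ha => rw [mul_smul_comm]; exact Submodule.smul_mem _ _ ha

theorem one_mem_N : (1 : B) ∈ D.N 0 :=
  Submodule.subset_span ⟨∅, ⟨by simp, by simp⟩, by simp, by simp [mon]⟩

theorem prod_mem_N (hcard : Fintype.card α = n) (ht : ∀ e, D.t e = 0)
    (s : Multiset (Finset α)) (hs : ∀ S ∈ s, S.Nonempty) :
    (s.map D.x).prod ∈ D.N (Multiset.card s) := by
  induction s using Multiset.induction with
  | empty => simpa using D.one_mem_N
  | cons S s ih =>
    rw [Multiset.map_cons, Multiset.prod_cons, Multiset.card_cons]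
    exact D.mul_mem_N hcard ht (ih fun T hT => hs T (Multiset.mem_cons_of_mem hT))
      (hs S (Multiset.mem_cons_self _ _))

theorem prod_mem_N' (hcard : Fintype.card α = n)
    (s : Multiset (Finset α)) (hs : ∀ S ∈ s, S.Nonempty) :
    (s.map D.x).prod ∈ D.N' (Multiset.card s) := by
  induction s using Multiset.induction with
  | empty => simpa using D.N_le_N' (le_refl 0) D.one_mem_N
  | cons S s ih =>
    rw [Multiset.map_cons, Multiset.prod_cons, Multiset.card_cons]
    exact D.mul_mem_N' hcard (ih fun T hT => hs T (Multiset.mem_cons_of_mem hT))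
      (hs S (Multiset.mem_cons_self _ _))

end Data

end Pool.Agent.E8helper55.RN
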